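import Pool.Agent.T9h81.EA.Peierls

/-!
# The number of finite connected sets containing a given vertex
-/

set_option autoImplicit false

open scoped Classical

namespace Pool.T9h81.EA

variable {V : Type}

/-- vertex lists of the walks of length `n` from `x` -/
noncomputable def wk (G : SimpleGraph V) [G.LocallyFinite] : ℕ → V → Finset (List V)
  | 0, x => {[x]}
  | n + 1, x => (G.neighborFinset x).biUnion fun y => (wk G n y).image fun l => x :: l

variable {G : SimpleGraph V} [G.LocallyFinite]

theorem card_wk {Δ : ℕ} (hΔ : ∀ x, G.degree x ≤ Δ) (n : ℕ) (x : V) :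
    (wk G n x).card ≤ Δ ^ n := by
  induction n generalizing x with
  | zero => simp [wk]
  | succ n ih =>
    unfold wk
    calc ((G.neighborFinset x).biUnion fun y => (wk G n y).image fun l => x :: l).card
        ≤ ∑ y ∈ G.neighborFinset x, ((wk G n y).image fun l => x :: l).card :=
          Finset.card_biUnion_le
      _ ≤ ∑ y ∈ G.neighborFinset x, Δ ^ n := by
          apply Finset.sum_le_sum
          intro y _
          exact Finset.card_image_le.trans (ih y)
      _ = G.degree x * Δ ^ n := by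
          rw [Finset.sum_const, smul_eq_mul]
          rfl
      _ ≤ Δ * Δ ^ n := Nat.mul_le_mul_right _ (hΔ x)
      _ = Δ ^ (n + 1) := by ring

theorem mem_wk_succ {n : ℕ} {x : V} {l : List V} :
    l ∈ wk G (n + 1) x ↔ ∃ y, G.Adj x y ∧ ∃ t ∈ wk G n y, x :: t = l := by
  rw [wk, Finset.mem_biUnion]
  constructor
  · rintro ⟨y, hy, h⟩
    obtain ⟨t, ht, h⟩ := Finset.mem_image.mp h
    exact ⟨y, (SimpleGraph.mem_neighborFinset _ _ _).mp hy, t, ht, h⟩
  · rintro ⟨y, hy, t, ht, h⟩
    exact ⟨y, (SimpleGraph.mem_neighborFinset _ _ _).mpr hy, Finset.mem_image.mpr ⟨t, ht, h⟩⟩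

theorem wk_insert (n : ℕ) : ∀ (x : V) (l : List V) (z y : V), l ∈ wk G n x → z ∈ l → G.Adj z y →
    ∃ l' ∈ wk G (n + 2) x, l'.toFinset = insert y l.toFinset := by
  induction n with
  | zero =>
    intro x l z y hl hz hzy
    rw [wk, Finset.mem_singleton] at hl
    subst hl
    rw [List.mem_singleton] at hz
    subst hz
    refine ⟨[z, y, z], ?_, ?_⟩
    · refine mem_wk_succ.mpr ⟨y, hzy, [y, z], ?_, rfl⟩
      refine mem_wk_succ.mpr ⟨z, hzy.symm, [z], ?_, rfl⟩
      rw [wk, Finset.mem_singleton]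
    · ext w
      simp only [List.mem_toFinset, List.mem_cons, List.not_mem_nil, Finset.mem_insert]
      tauto
  | succ n ih =>
    intro x l z y hl hz hzy
    obtain ⟨y₁, hxy, t, ht, rfl⟩ := mem_wk_succ.mp hl
    by_cases hzx : z = x
    · subst hzx
      refine ⟨z :: y :: z :: t, ?_, ?_⟩
      · refine mem_wk_succ.mpr ⟨y, hzy, y :: z :: t, ?_, rfl⟩
        exact mem_wk_succ.mpr ⟨z, hzy.symm, z :: t, hl, rfl⟩
      · ext w
        simp only [List.mem_toFinset, List.mem_cons, Finset.mem_insert]
        tauto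
    · have hzt : z ∈ t := by
        rcases List.mem_cons.mp hz with h | h
        · exact absurd h hzx
        · exact h
      obtain ⟨t', ht', h2⟩ := ih y₁ t z y ht hzt hzy
      refine ⟨x :: t', mem_wk_succ.mpr ⟨y₁, hxy, t', ht', rfl⟩, ?_⟩
      rw [List.toFinset_cons, List.toFinset_cons, h2, Finset.insert_comm]

theorem IsConn.exists_walk {x : V} {A : Finset V} (hA : IsConn G x A) (m : ℕ) :
    m < A.card → ∃ B ⊆ A, x ∈ B ∧ B.card = m + 1 ∧ ∃ l ∈ wk G (2 * m) x, l.toFinset = B := by
  induction m with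
  | zero =>
    intro _
    refine ⟨{x}, Finset.singleton_subset_iff.mpr hA.1, Finset.mem_singleton_self x,
      Finset.card_singleton x, [x], ?_, ?_⟩
    · show [x] ∈ wk G 0 x
      rw [wk, Finset.mem_singleton]
    · simp
  | succ m ih =>
    intro hm
    obtain ⟨B, hBA, hxB, hB, l, hl, hlB⟩ := ih (Nat.lt_of_succ_lt hm)
    have hne : B ≠ A := by
      intro h
      rw [h] at hB
      omega
    have h1 : ¬ ∀ u ∈ B, ∀ v ∈ A, G.Adj u v → v ∈ B := fun h => hne (hA.2 B hBA hxB h)
    push Not at h1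
    obtain ⟨u, hu, v, hv, huv, hvB⟩ := h1
    have hul : u ∈ l := by
      rw [← List.mem_toFinset, hlB]
      exact hu
    obtain ⟨l', hl', h2⟩ := wk_insert (2 * m) x l u v hl hul huv
    refine ⟨insert v B, Finset.insert_subset hv hBA, Finset.mem_insert_of_mem hxB, ?_, l', hl', ?_⟩
    · rw [Finset.card_insert_of_notMem hvB, hB]
    · rw [h2, hlB]

/-- a finite collection containing all connected sets of `n + 1` vertices containing `x` -/
noncomputable def cs (G : SimpleGraph V) [G.LocallyFinite] (x : V) (n : ℕ) : Finset (Finset V) :=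
  ((wk G (2 * n) x).image List.toFinset).filter fun A => IsConn G x A ∧ A.card = n + 1

theorem mem_cs {x : V} {n : ℕ} {A : Finset V} :
    A ∈ cs G x n ↔ IsConn G x A ∧ A.card = n + 1 := by
  unfold cs
  rw [Finset.mem_filter]
  constructor
  · exact fun h => h.2
  · intro h
    refine ⟨?_, h⟩
    obtain ⟨B, hBA, -, hB, l, hl, hlB⟩ := h.1.exists_walk n (by omega)
    have : B = A := Finset.eq_of_subset_of_card_le hBA (by omega)
    rw [← this, ← hlB]
    exact Finset.mem_image_of_mem _ hl

theorem card_cs {Δ : ℕ} (hΔ : ∀ x, G.degree x ≤ Δ) (n : ℕ) (x : V) :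
    (cs G x n).card ≤ Δ ^ (2 * n) := by
  unfold cs
  exact (Finset.card_filter_le _ _).trans (Finset.card_image_le.trans (card_wk hΔ _ x))

end Pool.T9h81.EA
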