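import Mathlib

/-!
# The Edwards–Anderson (random-sign Ising) model on a locally finite graph: definitions
-/

set_option autoImplicit false

open MeasureTheory
open scoped Classical

namespace Pool.T9h81.EA

/-- `true ↦ +1`, `false ↦ -1`. -/
def sg (b : Bool) : ℝ := if b then 1 else -1

/-- A realisation of the signs of the couplings: one sign for every edge of `G`. -/
abbrev Coupling {V : Type} (G : SimpleGraph V) : Type := G.edgeSet → Bool

/-- The coupling `J_{⟨x,y⟩} ∈ {-1,1}` if `x,y` are adjacent in `G`, and `0` otherwise. -/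
noncomputable def Jc {V : Type} {G : SimpleGraph V} (J : Coupling G) (x y : V) : ℝ :=
  if h : G.Adj x y then sg (J ⟨s(x, y), h⟩) else 0

theorem Jc_comm {V : Type} {G : SimpleGraph V} (J : Coupling G) (x y : V) :
    Jc J x y = Jc J y x := by
  unfold Jc
  by_cases h : G.Adj x y
  · have h' : G.Adj y x := h.symm
    simp only [h, h', dif_pos]
    have : (⟨s(x, y), h⟩ : G.edgeSet) = ⟨s(y, x), h'⟩ := by
      apply Subtype.ext; exact Sym2.eq_swap
    rw [this]
  · have h' : ¬ G.Adj y x := fun h' => h h'.symm
    simp [h, h']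

/-- The finite set of edges of `G` with at least one endpoint in `Λ`. -/
noncomputable def edgesOf {V : Type} (G : SimpleGraph V) [G.LocallyFinite] (Λ : Finset V) :
    Finset (Sym2 V) :=
  Λ.biUnion fun x => (G.neighborFinset x).image fun y => s(x, y)

/-- The term `J_e σ_x σ_y` of the bond `e = ⟨x,y⟩`. -/
noncomputable def bond {V : Type} {G : SimpleGraph V} (J : Coupling G) (σ : V → Bool) :
    Sym2 V → ℝ :=
  Sym2.lift ⟨fun x y => Jc J x y * sg (σ x) * sg (σ y), fun x y => by
    show Jc J x y * sg (σ x) * sg (σ y) = Jc J y x * sg (σ y) * sg (σ x)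
    rw [Jc_comm J x y]; ring⟩

/-- `∑ J_e σ_x σ_y` over the edges `e = ⟨x,y⟩` of `G` with `{x,y} ∩ Λ ≠ ∅`. -/
noncomputable def ham {V : Type} {G : SimpleGraph V} [G.LocallyFinite] (J : Coupling G)
    (Λ : Finset V) (σ : V → Bool) : ℝ :=
  ∑ e ∈ edgesOf G Λ, bond J σ e

/-- The configuration equal to `η` on `Λ` and to the boundary condition `ω` off `Λ`. -/
noncomputable def glue {V : Type} (Λ : Finset V) (η : Λ → Bool) (ω : V → Bool) : V → Bool :=
  fun x => if h : x ∈ Λ then η ⟨x, h⟩ else ω x

/-- Partition function in `Λ` with boundary condition `ω`. -/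
noncomputable def Zp {V : Type} {G : SimpleGraph V} [G.LocallyFinite] (β : ℝ) (J : Coupling G)
    (Λ : Finset V) (ω : V → Bool) : ℝ :=
  ∑ η : Λ → Bool, Real.exp (β * ham J Λ (glue Λ η ω))

/-- The expectation `π^ω_{Λ,βJ}(f)` of `f` under the Edwards–Anderson measure in `Λ` with
boundary condition `ω`. -/
noncomputable def gE {V : Type} {G : SimpleGraph V} [G.LocallyFinite] (β : ℝ) (J : Coupling G)
    (Λ : Finset V) (ω : V → Bool) (f : (V → Bool) → ℝ) : ℝ :=
  (∑ η : Λ → Bool, Real.exp (β * ham J Λ (glue Λ η ω)) * f (glue Λ η ω)) / Zp β J Λ ω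

/-- Gibbs states at `(β, J)`: probability measures satisfying the DLR equations for all finite
sets `Λ` of vertices. -/
def IsGibbs {V : Type} {G : SimpleGraph V} [G.LocallyFinite] (β : ℝ) (J : Coupling G)
    (π : Measure (V → Bool)) : Prop :=
  IsProbabilityMeasure π ∧
    ∀ (Λ : Finset V) (A : Set (V → Bool)), MeasurableSet A →
      (π A).toReal = ∫ ω, gE β J Λ ω (A.indicator fun _ => (1 : ℝ)) ∂π

/-- The law of independent fair signs on the edges of `G`. -/
noncomputable def couplingLaw {V : Type} (G : SimpleGraph V) : Measure (Coupling G) :=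
  Measure.infinitePi fun _ => (PMF.uniformOfFintype Bool).toMeasure

instance {V : Type} (G : SimpleGraph V) : IsProbabilityMeasure (couplingLaw G) := by
  unfold couplingLaw; infer_instance

end Pool.T9h81.EA
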