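import Pool.Agent.T9h81.EA.Gauge

/-!
# Edge boundaries in a forest of large minimum degree
-/

set_option autoImplicit false

open scoped Classical

namespace Pool.T9h81.EA

variable {V : Type}

/-- the number of boundary edges, as a sum over the vertices of the set -/
theorem card_bdE (F : SimpleGraph V) [F.LocallyFinite] (A : Finset V) :
    (bdE F A).card = ∑ u ∈ A, (F.neighborFinset u \ A).card := by
  unfold bdE
  rw [Finset.card_biUnion]
  · apply Finset.sum_congr rfl
    intro u hu
    apply Finset.card_image_of_injOn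
    intro v hv w hw h
    have hv' := Finset.mem_sdiff.mp (Finset.mem_coe.mp hv)
    have hw' := Finset.mem_sdiff.mp (Finset.mem_coe.mp hw)
    rcases Sym2.eq_iff.mp h with h1 | h1
    · exact h1.2
    · exact h1.2.trans h1.1
  · intro u hu u' hu' hne
    simp only [Function.onFun]
    rw [Finset.disjoint_left]
    intro e he he'
    obtain ⟨v, hv, rfl⟩ := Finset.mem_image.mp he
    obtain ⟨v', hv', h⟩ := Finset.mem_image.mp he'
    have h1 := Finset.mem_sdiff.mp hv
    have h2 := Finset.mem_sdiff.mp hv'
    rcases Sym2.eq_iff.mp h with h3 | h3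
    · exact hne h3.1.symm
    · exact h1.2 (h3.1 ▸ hu')

theorem card_bdE_le (G : SimpleGraph V) [G.LocallyFinite] {Δ : ℕ} (hΔ : ∀ x, G.degree x ≤ Δ)
    (A : Finset V) : (bdE G A).card ≤ Δ * A.card := by
  rw [card_bdE]
  calc ∑ u ∈ A, (G.neighborFinset u \ A).card ≤ ∑ u ∈ A, Δ := by
        apply Finset.sum_le_sum
        intro u _
        exact (Finset.card_le_card Finset.sdiff_subset).trans (hΔ u)
    _ = Δ * A.card := by rw [Finset.sum_const, smul_eq_mul, mul_comm]

/-- in a forest, the number of edges inside a finite nonempty set is less than its size -/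
theorem card_edges_forest {W : Type} [Fintype W] [Nonempty W] (H : SimpleGraph W)
    [Fintype H.edgeSet] (hH : H.IsAcyclic) : H.edgeFinset.card + 1 ≤ Fintype.card W := by
  have htop : (⊤ : SimpleGraph W).Connected := SimpleGraph.connected_top
  obtain ⟨T, hHT, hT, hTree⟩ := htop.exists_isTree_le_of_le_of_isAcyclic le_top hH
  have h1 := hTree.card_edgeFinset
  have h2 : H.edgeFinset.card ≤ T.edgeFinset.card := by
    apply Finset.card_le_card
    exact SimpleGraph.edgeFinset_mono hHT
  omega

/-- **Isoperimetry in a forest** -/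
theorem forest_boundary (F : SimpleGraph V) [F.LocallyFinite] (hF : F.IsAcyclic) {k : ℕ}
    (hk : ∀ x, k ≤ F.degree x) (A : Finset V) : k * A.card ≤ (bdE F A).card + 2 * A.card := by
  rcases A.eq_empty_or_nonempty with rfl | hA
  · simp
  have : Nonempty A := hA.to_subtype
  let H : SimpleGraph A := F.induce (A : Set V)
  have hH : H.IsAcyclic := hF.induce _
  have h1 : H.edgeFinset.card + 1 ≤ Fintype.card A := card_edges_forest H hH
  have h2 : ∑ v : A, H.degree v = 2 * H.edgeFinset.card := H.sum_degrees_eq_twice_card_edges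
  have h3 : ∀ v : A, H.degree v = (F.neighborFinset v.1 ∩ A).card := by
    intro v
    rw [← SimpleGraph.card_neighborFinset_eq_degree]
    rw [← Finset.card_map (Function.Embedding.subtype _)]
    congr 1
    ext w
    simp only [Finset.mem_map, SimpleGraph.mem_neighborFinset, Finset.mem_inter,
      Function.Embedding.subtype_apply]
    constructor
    · rintro ⟨w', h4, rfl⟩
      exact ⟨h4, w'.2⟩
    · rintro ⟨h4, h5⟩
      exact ⟨⟨w, h5⟩, h4, rfl⟩
  have h4 : ∑ v ∈ A, (F.neighborFinset v ∩ A).card = 2 * H.edgeFinset.card := by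
    rw [← h2, ← Finset.sum_coe_sort A fun v => (F.neighborFinset v ∩ A).card]
    exact Finset.sum_congr rfl fun v _ => (h3 v).symm
  have h5 : ∑ v ∈ A, F.degree v = ∑ v ∈ A, (F.neighborFinset v ∩ A).card +
      ∑ v ∈ A, (F.neighborFinset v \ A).card := by
    rw [← Finset.sum_add_distrib]
    apply Finset.sum_congr rfl
    intro v _
    rw [← SimpleGraph.card_neighborFinset_eq_degree, Finset.card_inter_add_card_sdiff]
  have h6 : k * A.card ≤ ∑ v ∈ A, F.degree v := by
    calc k * A.card = ∑ v ∈ A, k := by rw [Finset.sum_const, smul_eq_mul, mul_comm]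
      _ ≤ _ := Finset.sum_le_sum fun v _ => hk v
  have h7 : Fintype.card A = A.card := Fintype.card_coe A
  rw [card_bdE]
  omega

end Pool.T9h81.EA
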