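import Pool.Agent.T9h81.EA.Basic

/-!
# Hoeffding's inequality for independent signs
-/

set_option autoImplicit false

open MeasureTheory ProbabilityTheory

namespace Pool.T9h81.EA

theorem measurable_sg : Measurable sg := measurable_of_countable sg

theorem abs_sg (b : Bool) : |sg b| = 1 := by cases b <;> simp [sg]

/-- Hoeffding's inequality for a finite sum of independent signs of mean `m`. -/
theorem hoeff {ι : Type} (ν : ι → Measure Bool) [∀ i, IsProbabilityMeasure (ν i)] (m : ℝ)
    (hm : ∀ i, ∫ b, sg b ∂(ν i) = m) (S : Finset ι) (ε : ℝ) (hε : 0 ≤ ε) :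
    (Measure.infinitePi ν).real {ω | ∑ i ∈ S, sg (ω i) ≤ S.card * m - ε} ≤
      Real.exp (-ε ^ 2 / (2 * S.card)) := by
  set μ := Measure.infinitePi ν with hμ
  let X : ι → (ι → Bool) → ℝ := fun i ω => m - sg (ω i)
  have hmeas : ∀ i, Measurable (X i) := fun i =>
    measurable_const.sub (measurable_sg.comp (measurable_pi_apply i))
  have hind : iIndepFun X μ :=
    iIndepFun_infinitePi (X := fun _ b => m - sg b) fun _ => measurable_const.sub measurable_sg
  have hint : ∀ i, ∫ ω, sg (ω i) ∂μ = m := by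
    intro i
    have h1 : ∫ ω : ι → Bool, sg (ω i) ∂μ = ∫ b, sg b ∂(μ.map (fun ω : ι → Bool => ω i)) := by
      rw [integral_map (measurable_pi_apply i).aemeasurable
        measurable_sg.aestronglyMeasurable]
    rw [h1, hμ, Measure.infinitePi_map_eval]
    exact hm i
  have hsub : ∀ i ∈ S, HasSubgaussianMGF (X i) 1 μ := by
    intro i _
    have h1 : HasSubgaussianMGF (fun ω : ι → Bool => (-sg (ω i)) - μ[fun ω : ι → Bool => -sg (ω i)])
        ((‖(1 : ℝ) - (-1)‖₊ / 2) ^ 2) μ := by
      apply hasSubgaussianMGF_of_mem_Icc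
      · exact (measurable_sg.comp (measurable_pi_apply i)).neg.aemeasurable
      · refine ae_of_all _ fun ω => ?_
        cases ω i <;> simp [sg]
    have h2 : μ[fun ω : ι → Bool => -sg (ω i)] = -m := by
      rw [integral_neg, hint]
    have h3 : ((‖(1 : ℝ) - (-1)‖₊ / 2) ^ 2 : NNReal) = 1 := by
      have h4 : ‖(1 : ℝ) - (-1)‖₊ = 2 := by
        apply NNReal.eq
        simp
        norm_num
      rw [h4]
      simp
    rw [h3] at h1
    refine h1.congr (ae_of_all _ fun ω => ?_)
    show -sg (ω i) - (∫ ω, -sg (ω i) ∂μ) = m - sg (ω i)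
    rw [h2]
    ring
  have h5 := HasSubgaussianMGF.measure_sum_ge_le_of_iIndepFun hind (c := fun _ => 1) (s := S)
    hsub hε
  have h6 : {ω : ι → Bool | ∑ i ∈ S, sg (ω i) ≤ S.card * m - ε} =
      {ω | ε ≤ ∑ i ∈ S, X i ω} := by
    ext ω
    show ∑ i ∈ S, sg (ω i) ≤ S.card * m - ε ↔ ε ≤ ∑ i ∈ S, X i ω
    have h7 : ∑ i ∈ S, X i ω = S.card * m - ∑ i ∈ S, sg (ω i) := by
      show ∑ i ∈ S, (m - sg (ω i)) = _
      rw [Finset.sum_sub_distrib, Finset.sum_const, nsmul_eq_mul]
    rw [h7]
    constructor <;> intro h <;> linarith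
  rw [h6]
  refine h5.trans (le_of_eq ?_)
  simp

end Pool.T9h81.EA
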