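import Pool.Agent.T9h81.EA.Law

/-!
# Twisting the gauge by a sign depending only on the component of the forest
-/

set_option autoImplicit false

open MeasureTheory
open scoped Classical

namespace Pool.T9h81.EA

variable {V : Type} {G : SimpleGraph V}

/-- the gauge, multiplied by the signs `ε` -/
noncomputable def gaugeT (F : SimpleGraph V) (ε : V → Bool) (J : Coupling G) (x : V) : Bool :=
  gauge F J x == ε x

/-- relative sign of `ε` across an edge -/
def tw (ε : V → Bool) : Sym2 V → Bool :=
  Sym2.lift ⟨fun x y => ε x == ε y, fun x y => by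
    show (ε x == ε y) = (ε y == ε x)
    cases ε x <;> cases ε y <;> rfl⟩

theorem tw_mk (ε : V → Bool) (x y : V) : tw ε s(x, y) = (ε x == ε y) := rfl

theorem bond_gaugeT (F : SimpleGraph V) (ε : V → Bool) (J : Coupling G) (e : Sym2 V) :
    bond J (gaugeT F ε J) e = sg (tw ε e) * bond J (gauge F J) e := by
  induction e using Sym2.ind with
  | _ x y =>
    rw [bond_mk, bond_mk, tw_mk, sg_beq]
    unfold gaugeT
    rw [sg_beq, sg_beq]
    ring

theorem measurable_gaugeT (F : SimpleGraph V) (ε : V → Bool) (x : V) :
    Measurable fun J : Coupling G => gaugeT F ε J x :=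
  measurable_beq (measurable_gauge F x) measurable_const

end Pool.T9h81.EA
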