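import Pool.Agent.T9h81.EA.Forest
import Pool.Agent.T9h81.EA.Twist
import Pool.Agent.T9h81.EA.Hoeff
import Pool.Agent.T9h81.EA.Indep
import Pool.Agent.T9h81.EA.Count

/-!
# Symmetric random signs on a graph containing a dense forest: more than one Gibbs state
-/

set_option autoImplicit false
set_option linter.unusedSectionVars false

open MeasureTheory Filter Topology
open scoped Classical ENNReal

namespace Pool.T9h81.EA

variable {V : Type} {G : SimpleGraph V} [G.LocallyFinite]

theorem measurable_Jc (x y : V) : Measurable fun J : Coupling G => Jc J x y := by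
  unfold Jc
  by_cases h : G.Adj x y
  · simp only [h, dif_pos]
    exact measurable_sg.comp (measurable_pi_apply _)
  · simp only [h, dif_neg, not_false_eq_true]
    exact measurable_const

theorem measurable_bE (F : SimpleGraph V) (ε : V → Bool) (A : Finset V) :
    Measurable fun J : Coupling G => bE J (gaugeT F ε J) A := by
  unfold bE
  apply Finset.measurable_sum
  intro e _
  induction e using Sym2.ind with
  | _ x y =>
    show Measurable fun J : Coupling G =>
      Jc J x y * sg (gaugeT F ε J x) * sg (gaugeT F ε J y)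
    exact ((measurable_Jc x y).mul (measurable_sg.comp (measurable_gaugeT F ε x))).mul
      (measurable_sg.comp (measurable_gaugeT F ε y))

/-- boundary edges off the forest, as coordinates -/
noncomputable def offE (G F : SimpleGraph V) [G.LocallyFinite] (A : Finset V) :
    Finset G.edgeSet :=
  ((bdE G A).filter fun e => e ∉ F.edgeSet).subtype fun e => e ∈ G.edgeSet

/-- the boundary energy after the gauge transformation -/
noncomputable def NE (F : SimpleGraph V) [F.LocallyFinite] (ε : V → Bool) (A : Finset V)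
    (b : Coupling G) : ℝ :=
  (bdE F A).card + ∑ i ∈ offE G F A, sg (tw ε i.1) * sg (b i)

theorem bE_mix {F : SimpleGraph V} [F.LocallyFinite] (hF : F.IsAcyclic) (hFG : F ≤ G)
    {ε : V → Bool} (hε : ∀ x y, F.Adj x y → ε x = ε y) (a b : Coupling G) (A : Finset V) :
    bE (mix F a b) (gaugeT F ε (mix F a b)) A = NE F ε A b := by
  unfold bE NE
  simp only [bond_gaugeT]
  rw [← Finset.sum_filter_add_sum_filter_not (bdE G A) (fun e => e ∈ F.edgeSet)]
  congr 1
  · have h1 : (bdE G A).filter (fun e => e ∈ F.edgeSet) = bdE F A := by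
      ext e
      rw [Finset.mem_filter, mem_bdE, mem_bdE]
      constructor
      · rintro ⟨⟨u, hu, v, hv, _, rfl⟩, h⟩
        exact ⟨u, hu, v, hv, h, rfl⟩
      · rintro ⟨u, hu, v, hv, huv, rfl⟩
        exact ⟨⟨u, hu, v, hv, hFG huv, rfl⟩, huv⟩
    have h3 : ∀ e ∈ bdE F A, sg (tw ε e) * bond (mix F a b) (gauge F (mix F a b)) e = 1 := by
      intro e he
      obtain ⟨u, _, v, _, huv, rfl⟩ := mem_bdE.mp he
      have huv' : s(u, v) ∈ F.edgeSet := huv
      rw [bond_gauge hF hFG (mix F a b) huv', mul_one, tw_mk, sg_beq, hε u v huv, sg_mul_self]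
    rw [h1, Finset.sum_congr rfl h3, Finset.sum_const, nsmul_eq_mul, mul_one]
  · have hG : ∀ e ∈ (bdE G A).filter (fun e => e ∉ F.edgeSet), e ∈ G.edgeSet := by
      intro e he
      obtain ⟨u, _, v, _, huv, rfl⟩ := mem_bdE.mp (Finset.mem_filter.mp he).1
      exact huv
    have h3 : ∀ e ∈ (bdE G A).filter (fun e => e ∉ F.edgeSet),
        sg (tw ε e) * bond (mix F a b) (gauge F (mix F a b)) e =
          sg (tw ε e) * sg (ext b e) := by
      intro e he
      rw [bond_mix F a b (Finset.mem_filter.mp he).2 (hG e he)]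
    rw [Finset.sum_congr rfl h3]
    unfold offE
    rw [← Finset.sum_subtype_of_mem (fun e => sg (tw ε e) * sg (ext b e)) hG]
    apply Finset.sum_congr rfl
    intro i _
    unfold ext
    rw [dif_pos i.2]

theorem card_offE_le (F : SimpleGraph V) {Δ : ℕ} (hΔ : ∀ x, G.degree x ≤ Δ)
    (A : Finset V) : (offE G F A).card ≤ Δ * A.card := by
  unfold offE
  rw [Finset.card_subtype]
  refine (Finset.card_filter_le _ _).trans ((Finset.card_filter_le _ _).trans ?_)
  exact card_bdE_le G hΔ A

/-- the numerical estimate used for the probability and for the Peierls sum -/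
theorem num_bound {Δ : ℕ} (h2 : 2 ≤ Δ) (n : ℕ) (t : ℝ) (ht : 4 * Real.log Δ * (n + 1) ≤ t) :
    ((Δ ^ (2 * n) : ℕ) : ℝ) * Real.exp (-t) ≤ 1 / 16 * (1 / 2) ^ n := by
  have hΔ : (2 : ℝ) ≤ Δ := by exact_mod_cast h2
  have hpos : (0 : ℝ) < Δ := by linarith
  have h1 : Real.exp (-t) ≤ ((Δ : ℝ) ^ (4 * (n + 1)))⁻¹ := by
    have h3 : ((Δ : ℝ) ^ (4 * (n + 1)))⁻¹ = Real.exp (-(4 * Real.log Δ * (n + 1))) := by
      rw [Real.exp_neg]
      congr 1
      have h4 : 4 * Real.log Δ * (n + 1) = ((4 * (n + 1) : ℕ) : ℝ) * Real.log Δ := by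
        push_cast
        ring
      rw [h4, Real.exp_nat_mul, Real.exp_log hpos]
    rw [h3]
    exact Real.exp_le_exp.mpr (by linarith)
  have h5 : ((Δ ^ (2 * n) : ℕ) : ℝ) * ((Δ : ℝ) ^ (4 * (n + 1)))⁻¹ = ((Δ : ℝ) ^ (2 * n + 4))⁻¹ := by
    rw [Nat.cast_pow]
    have h6 : (Δ : ℝ) ^ (4 * (n + 1)) = (Δ : ℝ) ^ (2 * n) * (Δ : ℝ) ^ (2 * n + 4) := by
      rw [← pow_add]
      congr 1
      ring
    rw [h6, mul_inv]
    have h7 : (Δ : ℝ) ^ (2 * n) ≠ 0 := pow_ne_zero _ hpos.ne'
    rw [← mul_assoc, mul_inv_cancel₀ h7, one_mul]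
  calc ((Δ ^ (2 * n) : ℕ) : ℝ) * Real.exp (-t)
      ≤ ((Δ ^ (2 * n) : ℕ) : ℝ) * ((Δ : ℝ) ^ (4 * (n + 1)))⁻¹ :=
        mul_le_mul_of_nonneg_left h1 (Nat.cast_nonneg _)
    _ = ((Δ : ℝ) ^ (2 * n + 4))⁻¹ := h5
    _ ≤ ((2 : ℝ) ^ (2 * n + 4))⁻¹ := by
        apply inv_anti₀ (by positivity)
        exact pow_le_pow_left₀ (by norm_num) hΔ _
    _ ≤ 1 / 16 * (1 / 2) ^ n := by
        have h8 : ((2 : ℝ) ^ (2 * n + 4))⁻¹ = 1 / 16 * ((1 / 2) ^ n * (1 / 2) ^ n) := by
          rw [pow_add, pow_mul, mul_inv, ← inv_pow, ← mul_pow]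
          norm_num
          ring
        rw [h8]
        have h9 : (1 / 2 : ℝ) ^ n ≤ 1 := pow_le_one₀ (by norm_num) (by norm_num)
        have h10 : (0 : ℝ) ≤ (1 / 2) ^ n := by positivity
        nlinarith

/-- the bad event for connected sets with `n + 1` vertices containing `x` -/
def BadF (F : SimpleGraph V) [F.LocallyFinite] (ε : V → Bool) (c : ℝ) (x : V) (n : ℕ) :
    Set (Coupling G) :=
  {b | ∃ A ∈ cs G x n, NE F ε A b < c * (n + 1)}

/-- the coordinates determining the bad event -/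
noncomputable def SF (G F : SimpleGraph V) [G.LocallyFinite] (x : V) (n : ℕ) :
    Finset G.edgeSet := (cs G x n).biUnion fun A => offE G F A

theorem BadF_dep (F : SimpleGraph V) [F.LocallyFinite] (ε : V → Bool) (c : ℝ) (x : V) (n : ℕ) :
    DepOn (SF G F x n) (BadF (G := G) F ε c x n) := by
  rintro b b' h ⟨A, hA, h1⟩
  refine ⟨A, hA, ?_⟩
  have h2 : NE F ε A b' = NE F ε A b := by
    unfold NE
    congr 1
    apply Finset.sum_congr rfl
    intro i hi
    rw [h i (Finset.mem_biUnion.mpr ⟨A, hA, hi⟩)]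
  rw [h2]
  exact h1

theorem SF_loc (F : SimpleGraph V) (n : ℕ) (i : G.edgeSet) :
    {x | i ∈ SF G F x n}.Finite := by
  obtain ⟨e, he⟩ := i
  induction e using Sym2.ind with
  | _ u v =>
    have hsub : {x | (⟨s(u, v), he⟩ : G.edgeSet) ∈ SF G F x n} ⊆
        ((((cs G u n).biUnion id) ∪ ((cs G v n).biUnion id) : Finset V) : Set V) := by
      intro x hx
      obtain ⟨A, hA, h1⟩ := Finset.mem_biUnion.mp hx
      obtain ⟨hconn, hcard⟩ := mem_cs.mp hA
      unfold offE at h1
      rw [Finset.mem_subtype, Finset.mem_filter, mem_bdE] at h1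
      obtain ⟨⟨u', hu', v', hv', -, h2⟩, -⟩ := h1
      rw [Finset.coe_union, Set.mem_union]
      rcases Sym2.eq_iff.mp h2 with h3 | h3
      · left
        rw [h3.1] at hu'
        exact Finset.mem_coe.mpr (Finset.mem_biUnion.mpr
          ⟨A, mem_cs.mpr ⟨hconn.symm hu', hcard⟩, hconn.1⟩)
      · right
        rw [h3.1] at hu'
        exact Finset.mem_coe.mpr (Finset.mem_biUnion.mpr
          ⟨A, mem_cs.mpr ⟨hconn.symm hu', hcard⟩, hconn.1⟩)
    exact (Finset.finite_toSet _).subset hsub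

theorem coin_mean : ∫ b, sg b ∂coin = 0 := by
  unfold coin
  rw [PMF.integral_eq_sum, Fintype.sum_bool]
  simp [sg]

/-- the law of independent fair signs is invariant under multiplication by fixed signs -/
theorem map_tw (τ : G.edgeSet → Bool) :
    (Measure.infinitePi fun _ : G.edgeSet => coin).map (fun b i => (b i == τ i)) =
      Measure.infinitePi fun _ : G.edgeSet => coin := by
  have h := Measure.infinitePi_map_pi (fun _ : G.edgeSet => coin)
    (f := fun i b => (b == τ i)) (fun i => measurable_of_countable _)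
  have h2 : (fun i : G.edgeSet => coin.map fun b => (b == τ i)) = fun _ => coin := by
    funext i
    ext t ht
    rw [Measure.map_apply (measurable_of_countable _) ht]
    exact coin_beq t (τ i)
  exact h.trans (by simp only [h2])

theorem hoeff_tw (τ : G.edgeSet → Bool) (S : Finset G.edgeSet) (ε : ℝ) (hε : 0 ≤ ε) :
    (Measure.infinitePi fun _ : G.edgeSet => coin).real
      {b | ∑ i ∈ S, sg (τ i) * sg (b i) ≤ -ε} ≤ Real.exp (-ε ^ 2 / (2 * S.card)) := by
  have h1 := hoeff (fun _ : G.edgeSet => coin) 0 (fun _ => coin_mean) S ε hε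
  have hm : Measurable fun (b : G.edgeSet → Bool) (i : G.edgeSet) => (b i == τ i) := by
    rw [measurable_pi_iff]
    intro i
    exact measurable_beq (measurable_pi_apply i) measurable_const
  rw [← map_tw τ]
  have hS : MeasurableSet {b : G.edgeSet → Bool | ∑ i ∈ S, sg (τ i) * sg (b i) ≤ -ε} := by
    apply measurableSet_le _ measurable_const
    exact Finset.measurable_sum _ fun i _ =>
      measurable_const.mul (measurable_sg.comp (measurable_pi_apply i))
  rw [map_measureReal_apply hm hS]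
  refine le_trans (le_of_eq ?_) h1
  congr 1
  ext b
  show ∑ i ∈ S, sg (τ i) * sg (b i == τ i) ≤ -ε ↔ ∑ i ∈ S, sg (b i) ≤ S.card * (0 : ℝ) - ε
  have h3 : ∑ i ∈ S, sg (τ i) * sg (b i == τ i) = ∑ i ∈ S, sg (b i) := by
    apply Finset.sum_congr rfl
    intro i _
    rw [sg_beq]
    linear_combination sg (b i) * sg_mul_self (τ i)
  rw [h3, mul_zero, zero_sub]

theorem prob_BadF (F : SimpleGraph V) [F.LocallyFinite] (ε : V → Bool) (hF : F.IsAcyclic)
    {k Δ : ℕ}
    (hk : ∀ x, k ≤ F.degree x) (hΔ : ∀ x, G.degree x ≤ Δ) (h2 : 2 ≤ Δ) (hk3 : 3 ≤ k)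
    (hkΔ : 32 * (Δ * Real.log Δ) ≤ ((k : ℝ) - 2) ^ 2) (x : V) (n : ℕ) :
    (Measure.infinitePi fun _ : G.edgeSet => coin) (BadF F ε (((k : ℝ) - 2) / 2) x n) ≤
      ENNReal.ofReal (1 / 16 * (1 / 2) ^ n) := by
  set μ : Measure (Coupling G) := Measure.infinitePi fun _ : G.edgeSet => coin with hμ
  set c : ℝ := ((k : ℝ) - 2) / 2 with hc
  have hk3' : (3 : ℝ) ≤ k := by exact_mod_cast hk3
  have hc0 : 0 < c := by rw [hc]; linarith
  have hΔ0 : (0 : ℝ) < Δ := by
    have : (2 : ℝ) ≤ Δ := by exact_mod_cast h2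
    linarith
  have hone : ∀ A ∈ cs G x n, μ.real {b | NE F ε A b < c * (n + 1)} ≤
      Real.exp (-(4 * Real.log Δ * (n + 1))) := by
    intro A hA
    obtain ⟨-, hcard⟩ := mem_cs.mp hA
    have hfb := forest_boundary F hF hk A
    rw [hcard] at hfb
    have hfb' : (k : ℝ) * (n + 1) ≤ (bdE F A).card + 2 * (n + 1) := by exact_mod_cast hfb
    have hsub : {b : Coupling G | NE F ε A b < c * (n + 1)} ⊆
        {b | ∑ i ∈ offE G F A, sg (tw ε i.1) * sg (b i) ≤ -(c * (n + 1))} := by
      intro b hb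
      have hb' : NE F ε A b < c * (n + 1) := hb
      show ∑ i ∈ offE G F A, sg (tw ε i.1) * sg (b i) ≤ -(c * (n + 1))
      unfold NE at hb'
      rw [hc] at hb' ⊢
      nlinarith
    by_cases hM : (offE G F A).card = 0
    · have hempty : {b : Coupling G | NE F ε A b < c * (n + 1)} = ∅ := by
        rw [Set.eq_empty_iff_forall_notMem]
        intro b hb
        have h3 := hsub hb
        have h4 : ∑ i ∈ offE G F A, sg (tw ε i.1) * sg (b i) ≤ -(c * (n + 1)) := h3
        rw [Finset.card_eq_zero.mp hM] at h4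
        simp only [Finset.sum_empty] at h4
        have h5 : 0 < c * ((n : ℝ) + 1) := by positivity
        linarith
      rw [hempty]
      simp only [measureReal_empty]
      exact (Real.exp_pos _).le
    · have hMpos : (0 : ℝ) < (offE G F A).card := by
        exact_mod_cast Nat.pos_of_ne_zero hM
      have hMle : ((offE G F A).card : ℝ) ≤ Δ * (n + 1) := by
        have := card_offE_le F hΔ A
        rw [hcard] at this
        exact_mod_cast this
      have hε : 0 ≤ c * ((n : ℝ) + 1) := by positivity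
      have h3 := hoeff_tw (fun i : G.edgeSet => tw ε i.1) (offE G F A) (c * (n + 1)) hε
      refine (measureReal_mono hsub).trans (h3.trans ?_)
      apply Real.exp_le_exp.mpr
      rw [neg_div, neg_le_neg_iff, le_div_iff₀ (by positivity)]
      have hlog : 0 ≤ Real.log Δ := Real.log_natCast_nonneg Δ
      have h4 : 4 * Real.log Δ * ((n : ℝ) + 1) * (2 * (offE G F A).card) ≤
          4 * Real.log Δ * ((n : ℝ) + 1) * (2 * (Δ * (n + 1))) := by
        apply mul_le_mul_of_nonneg_left _ (by positivity)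
        linarith
      have h5 : 4 * Real.log Δ * ((n : ℝ) + 1) * (2 * (Δ * (n + 1))) ≤ (c * (n + 1)) ^ 2 := by
        rw [hc]
        have h6 : 0 ≤ ((n : ℝ) + 1) ^ 2 := by positivity
        nlinarith
      linarith
  have h1 : μ (BadF F ε c x n) ≤ ∑ A ∈ cs G x n, μ {b | NE F ε A b < c * (n + 1)} := by
    have : BadF (G := G) F ε c x n = ⋃ A ∈ cs G x n, {b | NE F ε A b < c * (n + 1)} := by
      ext b
      simp only [BadF, Set.mem_iUnion]
      constructor
      · rintro ⟨A, hA, h⟩
        exact ⟨A, hA, h⟩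
      · rintro ⟨A, hA, h⟩
        exact ⟨A, hA, h⟩
    rw [this]
    exact measure_biUnion_finset_le _ _
  refine h1.trans ?_
  calc ∑ A ∈ cs G x n, μ {b | NE F ε A b < c * (n + 1)}
      ≤ ∑ A ∈ cs G x n, ENNReal.ofReal (Real.exp (-(4 * Real.log Δ * (n + 1)))) := by
        apply Finset.sum_le_sum
        intro A hA
        rw [← ofReal_measureReal]
        exact ENNReal.ofReal_le_ofReal (hone A hA)
    _ = (cs G x n).card * ENNReal.ofReal (Real.exp (-(4 * Real.log Δ * (n + 1)))) := by
        rw [Finset.sum_const, nsmul_eq_mul]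
    _ ≤ (Δ ^ (2 * n) : ℕ) * ENNReal.ofReal (Real.exp (-(4 * Real.log Δ * (n + 1)))) := by
        gcongr
        exact card_cs hΔ n x
    _ = ENNReal.ofReal (((Δ ^ (2 * n) : ℕ) : ℝ) *
          Real.exp (-(4 * Real.log Δ * (n + 1)))) := by
        rw [ENNReal.ofReal_mul (Nat.cast_nonneg _), ENNReal.ofReal_natCast]
    _ ≤ _ := ENNReal.ofReal_le_ofReal (num_bound h2 n _ le_rfl)

theorem tsum_w : ∑' n : ℕ, ENNReal.ofReal (1 / 8 * (1 / 2) ^ n) < 1 := by
  rw [← ENNReal.ofReal_tsum_of_nonneg (fun n => by positivity)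
    (summable_geometric_two.mul_left _), tsum_mul_left, tsum_geometric_two]
  rw [ENNReal.ofReal_lt_one]
  norm_num

/-- a component of the forest is infinite -/
theorem infinite_component (F : SimpleGraph V) [F.LocallyFinite] (hF : F.IsAcyclic)
    {k : ℕ} (hk : ∀ x, k ≤ F.degree x) (hk3 : 3 ≤ k) (X : Set V) (hX : X.Nonempty)
    (hcl : ∀ x ∈ X, ∀ y, F.Adj x y → y ∈ X) : Infinite X := by
  by_contra h
  rw [not_infinite_iff_finite] at h
  have hfin : X.Finite := Set.toFinite X
  have h1 := forest_boundary F hF hk hfin.toFinset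
  have h2 : bdE F hfin.toFinset = ∅ := by
    rw [Finset.eq_empty_iff_forall_notMem]
    intro e he
    obtain ⟨u, hu, v, hv, huv, _⟩ := mem_bdE.mp he
    exact hv (hfin.mem_toFinset.mpr (hcl u (hfin.mem_toFinset.mp hu) v huv))
  have h3 : 0 < hfin.toFinset.card := by
    obtain ⟨x, hx⟩ := hX
    exact Finset.card_pos.mpr ⟨x, hfin.mem_toFinset.mpr hx⟩
  rw [h2, Finset.card_empty] at h1
  nlinarith

/-- `x` is good for the configuration `s`: all boundary energies of connected sets containing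
`x` are large. -/
def GoodAt (J : Coupling G) (s : V → Bool) (c : ℝ) (x : V) : Prop :=
  ∀ A : Finset V, IsConn G x A → c * A.card ≤ bE J s A

theorem goodAt_of_notMem {F : SimpleGraph V} [F.LocallyFinite] (hF : F.IsAcyclic) (hFG : F ≤ G)
    {ε : V → Bool} (hε : ∀ x y, F.Adj x y → ε x = ε y) (a b : Coupling G) (c : ℝ) (x : V)
    (hx : ∀ n, b ∉ BadF F ε c x n) : GoodAt (mix F a b) (gaugeT F ε (mix F a b)) c x := by
  intro A hA
  rw [bE_mix hF hFG hε]
  have hApos : 0 < A.card := Finset.card_pos.mpr ⟨x, hA.1⟩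
  have hmem : A ∈ cs G x (A.card - 1) := mem_cs.mpr ⟨hA, by omega⟩
  by_contra hlt
  rw [not_le] at hlt
  apply hx (A.card - 1)
  refine ⟨A, hmem, ?_⟩
  have h4 : (((A.card - 1 : ℕ) : ℝ) + 1) = A.card := by
    have : (A.card - 1) + 1 = A.card := by omega
    exact_mod_cast this
  rw [h4]
  exact hlt

/-- the good event, simultaneously for two sheet functions, has full probability -/
theorem ae_good [Countable V] (F : SimpleGraph V) [F.LocallyFinite]
    (hF : F.IsAcyclic) (hFG : F ≤ G) {k Δ : ℕ}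
    (hk : ∀ x, k ≤ F.degree x) (hΔ : ∀ x, G.degree x ≤ Δ) (h2 : 2 ≤ Δ) (hk3 : 3 ≤ k)
    (hkΔ : 32 * (Δ * Real.log Δ) ≤ ((k : ℝ) - 2) ^ 2) (X : Set V) (hX : X.Nonempty)
    (hcl : ∀ x ∈ X, ∀ y, F.Adj x y → y ∈ X) (ε ε' : V → Bool)
    (hε : ∀ x y, F.Adj x y → ε x = ε y) (hε' : ∀ x y, F.Adj x y → ε' x = ε' y) :
    ∀ᵐ J ∂(couplingLaw G), ∃ x ∈ X, GoodAt J (gaugeT F ε J) (((k : ℝ) - 2) / 2) x ∧
      GoodAt J (gaugeT F ε' J) (((k : ℝ) - 2) / 2) x := by
  set c : ℝ := ((k : ℝ) - 2) / 2 with hc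
  have : Infinite X := infinite_component F hF hk hk3 X hX hcl
  have hgood := exists_good (fun _ : G.edgeSet => coin) (X := X)
    (fun x n => BadF (G := G) F ε c x.1 n ∪ BadF (G := G) F ε' c x.1 n)
    (fun x n => SF G F x.1 n)
    (by
      intro x n b b' h h1
      rcases h1 with h1 | h1
      · exact Or.inl (BadF_dep F ε c x.1 n b b' h h1)
      · exact Or.inr (BadF_dep F ε' c x.1 n b b' h h1))
    (fun n => ENNReal.ofReal (1 / 8 * (1 / 2) ^ n))
    (by
      intro x n
      refine (measure_union_le _ _).trans ?_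
      have e1 : (1 / 8 * (1 / 2) ^ n : ℝ) = 1 / 16 * (1 / 2) ^ n + 1 / 16 * (1 / 2) ^ n := by
        ring
      rw [e1, ENNReal.ofReal_add (by positivity) (by positivity)]
      exact add_le_add (prob_BadF F ε hF hk hΔ h2 hk3 hkΔ x.1 n)
        (prob_BadF F ε' hF hk hΔ h2 hk3 hkΔ x.1 n))
    tsum_w
    (by
      intro n i
      have h6 : {x : X | i ∈ SF G F x.1 n} = Subtype.val ⁻¹' {x | i ∈ SF G F x n} := rfl
      rw [h6]
      exact Set.Finite.preimage Subtype.val_injective.injOn (SF_loc F n i))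
  have hmeas : MeasurableSet {J : Coupling G | ∃ x ∈ X, GoodAt J (gaugeT F ε J) c x ∧
      GoodAt J (gaugeT F ε' J) c x} := by
    have h1 : {J : Coupling G | ∃ x ∈ X, GoodAt J (gaugeT F ε J) c x ∧
        GoodAt J (gaugeT F ε' J) c x} = ⋃ x, ⋃ _ : x ∈ X,
        ((⋂ A : Finset V, ⋂ _ : IsConn G x A, {J | c * A.card ≤ bE J (gaugeT F ε J) A}) ∩
        (⋂ A : Finset V, ⋂ _ : IsConn G x A, {J | c * A.card ≤ bE J (gaugeT F ε' J) A})) := by
      ext J
      simp only [Set.mem_iUnion, Set.mem_iInter, Set.mem_inter_iff]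
      constructor
      · rintro ⟨x, hx, h3, h4⟩
        exact ⟨x, hx, fun A hA => h3 A hA, fun A hA => h4 A hA⟩
      · rintro ⟨x, hx, h3, h4⟩
        exact ⟨x, hx, fun A hA => h3 A hA, fun A hA => h4 A hA⟩
    rw [h1]
    refine MeasurableSet.iUnion fun x => MeasurableSet.iUnion fun _ =>
      MeasurableSet.inter ?_ ?_
    · exact MeasurableSet.iInter fun A => MeasurableSet.iInter
        fun _ => measurableSet_le measurable_const (measurable_bE F ε A)
    · exact MeasurableSet.iInter fun A => MeasurableSet.iInter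
        fun _ => measurableSet_le measurable_const (measurable_bE F ε' A)
  rw [← map_mix F, ae_map_iff (measurable_mix F).aemeasurable hmeas]
  have h3 : ∀ᵐ p ∂((couplingLaw G).prod (couplingLaw G)), ∃ x : X, ∀ n,
      p.2 ∉ BadF F ε c x.1 n ∪ BadF F ε' c x.1 n := by
    have h4 : ((couplingLaw G).prod (couplingLaw G)).map Prod.snd = couplingLaw G := by
      rw [Measure.map_snd_prod, measure_univ, one_smul]
    have h5 : ∀ᵐ b ∂(((couplingLaw G).prod (couplingLaw G)).map Prod.snd),
        ∃ x : X, ∀ n, b ∉ BadF F ε c x.1 n ∪ BadF F ε' c x.1 n := by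
      rw [h4]
      exact hgood
    exact ae_of_ae_map measurable_snd.aemeasurable h5
  filter_upwards [h3] with p hp
  obtain ⟨x, hx⟩ := hp
  exact ⟨x.1, x.2, goodAt_of_notMem hF hFG hε _ _ _ _ fun n h => hx n (Or.inl h),
    goodAt_of_notMem hF hFG hε' _ _ _ _ fun n h => hx n (Or.inr h)⟩

/-- **Peierls estimate at a good vertex** -/
theorem peierls_good {k Δ : ℕ} (hΔ : ∀ x, G.degree x ≤ Δ) (h2 : 2 ≤ Δ) (hk3 : 3 ≤ k)
    {β : ℝ} (hβ : 4 * Real.log Δ ≤ β * (k - 2)) (J : Coupling G) (s : V → Bool) (x : V)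
    (hx : GoodAt J s (((k : ℝ) - 2) / 2) x) (Λ : Finset V) :
    gE β J Λ s (dis s x) ≤ 1 / 8 := by
  have hk3' : (3 : ℝ) ≤ k := by exact_mod_cast hk3
  have hlog : 0 ≤ Real.log Δ := Real.log_natCast_nonneg Δ
  have hβ0 : 0 ≤ β := by
    by_contra h
    rw [not_le] at h
    have : β * ((k : ℝ) - 2) < 0 := mul_neg_of_neg_of_pos h (by linarith)
    linarith
  have h1 := peierls β J Λ s x ((Finset.range Λ.card).biUnion (cs G x)) (by
    intro A hA hconn
    have hApos : 0 < A.card := Finset.card_pos.mpr ⟨x, hconn.1⟩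
    have hle := Finset.card_le_card hA
    refine ⟨A, Finset.mem_biUnion.mpr ⟨A.card - 1, Finset.mem_range.mpr (by omega),
      mem_cs.mpr ⟨hconn, by omega⟩⟩, hA, fun u hu v hv _ => ⟨hu, hv⟩⟩)
  refine h1.trans ?_
  have h3 : ∀ n : ℕ, ∑ B ∈ cs G x n, Real.exp (-(2 * β * bE J s B)) ≤
      1 / 16 * (1 / 2) ^ n := by
    intro n
    calc ∑ B ∈ cs G x n, Real.exp (-(2 * β * bE J s B))
        ≤ ∑ B ∈ cs G x n, Real.exp (-(β * (k - 2) * (n + 1))) := by
          apply Finset.sum_le_sum
          intro B hB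
          obtain ⟨hconn, hcard⟩ := mem_cs.mp hB
          have h4 := hx B hconn
          rw [hcard] at h4
          push_cast at h4
          apply Real.exp_le_exp.mpr
          have h5 : β * (((k : ℝ) - 2) / 2 * (n + 1)) ≤ β * bE J s B :=
            mul_le_mul_of_nonneg_left h4 hβ0
          linarith
      _ = (cs G x n).card * Real.exp (-(β * (k - 2) * (n + 1))) := by
          rw [Finset.sum_const, nsmul_eq_mul]
      _ ≤ ((Δ ^ (2 * n) : ℕ) : ℝ) * Real.exp (-(β * (k - 2) * (n + 1))) := by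
          apply mul_le_mul_of_nonneg_right _ (Real.exp_pos _).le
          exact_mod_cast card_cs hΔ n x
      _ ≤ _ := num_bound h2 n _ (mul_le_mul_of_nonneg_right hβ (by positivity))
  calc ∑ B ∈ (Finset.range Λ.card).biUnion (cs G x),
        Real.exp (-(2 * β * bE J s B))
      = ∑ n ∈ Finset.range Λ.card, ∑ B ∈ cs G x n,
        Real.exp (-(2 * β * bE J s B)) := by
        apply Finset.sum_biUnion
        intro n _ n' _ hne
        simp only [Function.onFun]
        rw [Finset.disjoint_left]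
        intro B hB hB'
        have h6 := (mem_cs.mp hB).2
        have h7 := (mem_cs.mp hB').2
        omega
    _ ≤ ∑ n ∈ Finset.range Λ.card, (1 / 16 : ℝ) * (1 / 2) ^ n :=
        Finset.sum_le_sum fun n _ => h3 n
    _ ≤ ∑' n : ℕ, (1 / 16 : ℝ) * (1 / 2) ^ n :=
        Summable.sum_le_tsum _ (fun n _ => by positivity) (summable_geometric_two.mul_left _)
    _ = 1 / 8 := by
        rw [tsum_mul_left, tsum_geometric_two]
        norm_num

/-- **Symmetry breaking from a dense forest** -/
theorem main_forest [Countable V] [Nonempty V] (F : SimpleGraph V) [F.LocallyFinite]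
    (hF : F.IsAcyclic) (hFG : F ≤ G) {k Δ : ℕ}
    (hk : ∀ x, k ≤ F.degree x) (hΔ : ∀ x, G.degree x ≤ Δ) (h2 : 2 ≤ Δ) (hk3 : 3 ≤ k)
    (hkΔ : 32 * (Δ * Real.log Δ) ≤ ((k : ℝ) - 2) ^ 2) :
    ∀ᵐ J ∂(couplingLaw G), ∀ β : ℝ, 4 * Real.log Δ ≤ β * (k - 2) →
      ∃ π : Measure (V → Bool), IsGibbs β J π ∧ IsGibbs β J (π.map flipAll) ∧
        π ≠ π.map flipAll := by
  filter_upwards [ae_good F hF hFG hk hΔ h2 hk3 hkΔ Set.univ Set.univ_nonempty
    (fun _ _ _ _ => Set.mem_univ _) (fun _ => true) (fun _ => true) (fun _ _ _ => rfl)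
    (fun _ _ _ => rfl)] with J hJ β hβ
  obtain ⟨x, -, hx, -⟩ := hJ
  obtain ⟨Λs, hΛs⟩ := exists_seq_tendsto (atTop : Filter (Finset V))
  exact two_gibbs β J _ Λs hΛs x (1 / 8) (by norm_num) fun m =>
    peierls_good hΔ h2 hk3 hβ J _ x hx (Λs m)

/-- value of a spin probability from the disagreement probability -/
theorem real_of_dis [Countable V] (π : Measure (V → Bool)) [IsProbabilityMeasure π]
    (s : V → Bool) (x : V) (h : ∫ ω, dis s x ω ∂π ≤ 1 / 8) :
    |π.real {σ | σ x = true} - (if s x = true then 1 else 0)| ≤ 1 / 8 := by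
  have hm : MeasurableSet {σ : V → Bool | σ x = true} := by
    have h0 : {σ : V → Bool | σ x = true} = (fun σ : V → Bool => σ x) ⁻¹' {true} := rfl
    rw [h0]
    exact measurable_pi_apply x (MeasurableSet.singleton true)
  by_cases hs : s x = true
  · rw [if_pos hs]
    have h1 : ∀ ω : V → Bool, dis s x ω =
        1 - ({σ : V → Bool | σ x = true}.indicator (fun _ => (1 : ℝ)) ω) := by
      intro ω
      unfold dis Set.indicator
      rw [hs]
      by_cases hω : ω x = true
      · rw [if_pos hω]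
        have : ω ∈ {σ : V → Bool | σ x = true} := hω
        rw [if_pos this]
        norm_num
      · rw [if_neg hω]
        have : ω ∉ {σ : V → Bool | σ x = true} := hω
        rw [if_neg this]
        norm_num
    simp only [h1] at h
    rw [integral_sub (integrable_const _) ((integrable_const _).indicator hm),
      integral_indicator hm] at h
    simp only [integral_const, smul_eq_mul, mul_one, measureReal_restrict_apply_univ,
      probReal_univ] at h
    rw [abs_le]
    constructor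
    · linarith
    · have := measureReal_le_one (μ := π) (s := {σ : V → Bool | σ x = true})
      linarith
  · rw [if_neg hs]
    have hs' : s x = false := by simpa using hs
    have h1 : ∀ ω : V → Bool, dis s x ω =
        ({σ : V → Bool | σ x = true}.indicator (fun _ => (1 : ℝ)) ω) := by
      intro ω
      unfold dis Set.indicator
      rw [hs']
      by_cases hω : ω x = true
      · have h3 : ¬ ω x = false := by rw [hω]; simp
        rw [if_neg h3]
        have : ω ∈ {σ : V → Bool | σ x = true} := hω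
        rw [if_pos this]
      · have h3 : ω x = false := by simpa using hω
        rw [if_pos h3]
        have : ω ∉ {σ : V → Bool | σ x = true} := hω
        rw [if_neg this]
    simp only [h1] at h
    rw [integral_indicator hm] at h
    simp only [integral_const, smul_eq_mul, mul_one, measureReal_restrict_apply_univ] at h
    rw [abs_le]
    have := measureReal_nonneg (μ := π) (s := {σ : V → Bool | σ x = true})
    constructor <;> linarith

/-- **Infinitely many Gibbs states from a dense forest with infinitely many components** -/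
theorem main_forest_inf [Countable V] (F : SimpleGraph V) [F.LocallyFinite]
    (hF : F.IsAcyclic) (hFG : F ≤ G) {k Δ : ℕ}
    (hk : ∀ x, k ≤ F.degree x) (hΔ : ∀ x, G.degree x ≤ Δ) (h2 : 2 ≤ Δ) (hk3 : 3 ≤ k)
    (hkΔ : 32 * (Δ * Real.log Δ) ≤ ((k : ℝ) - 2) ^ 2) (hinf : Infinite F.ConnectedComponent) :
    ∀ᵐ J ∂(couplingLaw G), ∀ β : ℝ, 4 * Real.log Δ ≤ β * (k - 2) →
      ∃ π : ℕ → Measure (V → Bool), (∀ n, IsGibbs β J (π n)) ∧
        ∀ m n, m ≠ n → ∃ x, 3 / 4 ≤
          |(π m).real {σ | σ x = true} - (π n).real {σ | σ x = true}| := by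
  let cc : ℕ ↪ F.ConnectedComponent := Infinite.natEmbedding _
  let ε : ℕ → V → Bool := fun n x => decide (F.connectedComponentMk x ≠ cc n)
  have hε : ∀ n x y, F.Adj x y → ε n x = ε n y := by
    intro n x y hxy
    show decide _ = decide _
    rw [SimpleGraph.ConnectedComponent.connectedComponentMk_eq_of_adj hxy]
  have hall : ∀ p : ℕ × ℕ, ∀ᵐ J ∂(couplingLaw G),
      ∃ x ∈ {x | F.connectedComponentMk x = cc p.1},
        GoodAt J (gaugeT F (ε p.1) J) (((k : ℝ) - 2) / 2) x ∧
        GoodAt J (gaugeT F (ε p.2) J) (((k : ℝ) - 2) / 2) x := by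
    intro p
    apply ae_good F hF hFG hk hΔ h2 hk3 hkΔ
    · exact (cc p.1).exists_rep
    · intro x hx y hxy
      have hx' : F.connectedComponentMk x = cc p.1 := hx
      show F.connectedComponentMk y = cc p.1
      rw [← hx', SimpleGraph.ConnectedComponent.connectedComponentMk_eq_of_adj hxy]
    · exact hε p.1
    · exact hε p.2
  filter_upwards [ae_all_iff.mpr hall] with J hJ β hβ
  obtain ⟨Λs, hΛs⟩ := exists_seq_tendsto (atTop : Filter (Finset V))
  choose π hπ hπ2 using fun n => exists_gibbs_le β J (gaugeT F (ε n) J) Λs hΛs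
  refine ⟨π, hπ, fun m n hmn => ?_⟩
  obtain ⟨x, hxc, hx1, hx2⟩ := hJ (m, n)
  have hxc' : F.connectedComponentMk x = cc m := hxc
  refine ⟨x, ?_⟩
  have : IsProbabilityMeasure (π m) := (hπ m).1
  have : IsProbabilityMeasure (π n) := (hπ n).1
  have i1 := hπ2 m _ (continuous_dis (gaugeT F (ε m) J) x) (1 / 8) fun j =>
    peierls_good hΔ h2 hk3 hβ J _ x hx1 (Λs j)
  have i2 := hπ2 n _ (continuous_dis (gaugeT F (ε n) J) x) (1 / 8) fun j =>
    peierls_good hΔ h2 hk3 hβ J _ x hx2 (Λs j)
  have j1 := real_of_dis (π m) _ x i1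
  have j2 := real_of_dis (π n) _ x i2
  have e1 : ε m x = false := by
    show decide _ = false
    rw [hxc']
    simp
  have e2 : ε n x = true := by
    show decide _ = true
    rw [hxc', decide_eq_true_iff]
    intro h
    exact hmn (cc.injective h)
  have g1 : gaugeT F (ε m) J x = !gauge F J x := by
    unfold gaugeT
    rw [e1]
    cases gauge F J x <;> rfl
  have g2 : gaugeT F (ε n) J x = gauge F J x := by
    unfold gaugeT
    rw [e2]
    cases gauge F J x <;> rfl
  rw [g1] at j1
  rw [g2] at j2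
  rw [abs_le] at j1 j2
  cases hg : gauge F J x
  · rw [hg] at j1 j2
    simp only [Bool.not_false, if_true, Bool.false_eq_true, if_false] at j1 j2
    rw [le_abs]
    left
    linarith [j1.1, j2.2]
  · rw [hg] at j1 j2
    simp only [Bool.not_true, if_true, Bool.false_eq_true, if_false] at j1 j2
    rw [le_abs]
    right
    linarith [j1.2, j2.1]

end Pool.T9h81.EA
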