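import Pool.Agent.T9h81.EA.Peierls

/-!
# Gauge transformation along a spanning forest
-/

set_option autoImplicit false

open MeasureTheory
open scoped Classical

namespace Pool.T9h81.EA

variable {V : Type} {G : SimpleGraph V}

/-- extension of the couplings to all unordered pairs -/
noncomputable def ext (J : Coupling G) (e : Sym2 V) : Bool :=
  if h : e ∈ G.edgeSet then J ⟨e, h⟩ else true

/-- product of the signs over a list of edges -/
noncomputable def gw (J : Coupling G) (l : List (Sym2 V)) : Bool :=
  l.foldr (fun e b => ext J e == b) true

theorem sg_gw_append (J : Coupling G) (l l' : List (Sym2 V)) :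
    sg (gw J (l ++ l')) = sg (gw J l) * sg (gw J l') := by
  induction l with
  | nil => simp [gw, sg]
  | cons e l ih =>
    have h1 : gw J (e :: l ++ l') = (ext J e == gw J (l ++ l')) := rfl
    have h2 : gw J (e :: l) = (ext J e == gw J l) := rfl
    rw [h1, h2, sg_beq, sg_beq, ih]
    ring

theorem gw_congr (J J' : Coupling G) (l : List (Sym2 V)) (h : ∀ e ∈ l, ext J e = ext J' e) :
    gw J l = gw J' l := by
  induction l with
  | nil => rfl
  | cons e l ih =>
    have h1 : gw J (e :: l) = (ext J e == gw J l) := rfl
    have h2 : gw J' (e :: l) = (ext J' e == gw J' l) := rfl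
    rw [h1, h2, h e List.mem_cons_self, ih fun e' he' => h e' (List.mem_cons_of_mem _ he')]

theorem measurable_ext (e : Sym2 V) : Measurable fun J : Coupling G => ext J e := by
  unfold ext
  by_cases h : e ∈ G.edgeSet
  · simp only [h, dif_pos]
    exact measurable_pi_apply _
  · simp only [h, dif_neg, not_false_eq_true]
    exact measurable_const

theorem measurable_beq {α : Type} [MeasurableSpace α] {f g : α → Bool} (hf : Measurable f)
    (hg : Measurable g) : Measurable fun a => (f a == g a) :=
  (measurable_of_countable (fun p : Bool × Bool => p.1 == p.2)).comp (hf.prodMk hg)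

theorem measurable_gw (l : List (Sym2 V)) : Measurable fun J : Coupling G => gw J l := by
  induction l with
  | nil => exact measurable_const
  | cons e l ih => exact measurable_beq (measurable_ext e) ih

/-- root of the component of `x` in the forest `F` -/
noncomputable def root (F : SimpleGraph V) (x : V) : V := (F.connectedComponentMk x).out

theorem root_reach (F : SimpleGraph V) (x : V) : F.Reachable (root F x) x := by
  rw [← SimpleGraph.ConnectedComponent.eq]
  exact Quot.out_eq _

theorem root_eq {F : SimpleGraph V} {x y : V} (h : F.Adj x y) : root F x = root F y := by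
  unfold root
  rw [SimpleGraph.ConnectedComponent.connectedComponentMk_eq_of_adj h]

/-- a path in the forest `F` from the root to `x` -/
noncomputable def rp (F : SimpleGraph V) (x : V) : F.Path (root F x) x :=
  (root_reach F x).some.toPath

/-- the gauge: product of the signs of the couplings along the path in `F` from the root -/
noncomputable def gauge (F : SimpleGraph V) (J : Coupling G) (x : V) : Bool :=
  gw J (rp F x).1.edges

theorem measurable_gauge (F : SimpleGraph V) (x : V) :
    Measurable fun J : Coupling G => gauge F J x := measurable_gw _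

theorem gauge_congr {F : SimpleGraph V} (J J' : Coupling G)
    (h : ∀ e ∈ F.edgeSet, ext J e = ext J' e) : gauge F J = gauge F J' := by
  funext x
  exact gw_congr J J' _ fun e he => h e ((rp F x).1.edges_subset_edgeSet he)

theorem sg_gauge {F : SimpleGraph V} (hF : F.IsAcyclic) (J : Coupling G) {x y : V}
    (h : F.Adj x y) : sg (gauge F J y) = sg (gauge F J x) * sg (ext J s(x, y)) := by
  have hr : root F y = root F x := (root_eq h).symm
  set p : F.Walk (root F x) x := (rp F x).1 with hp
  have hpp : p.IsPath := (rp F x).2
  set q : F.Walk (root F x) y := ((rp F y).1).copy hr rfl with hq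
  have hqp : q.IsPath := by
    rw [hq, SimpleGraph.Walk.isPath_copy]
    exact (rp F y).2
  have hqe : q.edges = (rp F y).1.edges := SimpleGraph.Walk.edges_copy _ _ _
  have hsg1 : gw J [s(x, y)] = ext J s(x, y) := by
    show (ext J s(x, y) == true) = ext J s(x, y)
    cases ext J s(x, y) <;> rfl
  by_cases hv : x ∈ q.support
  · have h1 : q = p.concat h := hF.path_concat hpp hqp h hv
    have h2 : gauge F J y = gw J (p.edges ++ [s(x, y)]) := by
      unfold gauge
      rw [← hqe, h1, SimpleGraph.Walk.edges_concat, List.concat_eq_append]
    rw [h2, sg_gw_append, hsg1]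
    rfl
  · have hw : y ∈ p.support := hF.mem_support_of_ne_mem_support_of_adj_of_isPath hpp hqp h hv
    have h1 : p = q.concat h.symm := hF.path_concat hqp hpp h.symm hw
    have h2 : gauge F J x = gw J (q.edges ++ [s(x, y)]) := by
      unfold gauge
      show gw J p.edges = _
      rw [h1, SimpleGraph.Walk.edges_concat, List.concat_eq_append, Sym2.eq_swap]
    have h3 : gauge F J y = gw J q.edges := by
      unfold gauge
      rw [hqe]
    rw [h2, sg_gw_append, hsg1, h3, mul_assoc, sg_mul_self, mul_one]

theorem Jc_eq (J : Coupling G) {x y : V} (h : G.Adj x y) : Jc J x y = sg (ext J s(x, y)) := by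
  unfold Jc ext
  have h' : s(x, y) ∈ G.edgeSet := h
  rw [dif_pos h, dif_pos h']

/-- on the forest, all bonds are satisfied by the gauge configuration -/
theorem bond_gauge {F : SimpleGraph V} (hF : F.IsAcyclic) (hFG : F ≤ G) (J : Coupling G)
    {e : Sym2 V} (he : e ∈ F.edgeSet) : bond J (gauge F J) e = 1 := by
  induction e using Sym2.ind with
  | _ x y =>
    have h : F.Adj x y := he
    rw [bond_mk, sg_gauge hF J h, Jc_eq J (hFG h)]
    linear_combination (sg (ext J s(x, y)) * sg (ext J s(x, y)) : ℝ) *
      sg_mul_self (gauge F J x) + sg_mul_self (ext J s(x, y))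

end Pool.T9h81.EA
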