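import Pool.Agent.T9h81.EA.Gauge

/-!
# Invariance of the law of the couplings under the gauge transformation
-/

set_option autoImplicit false

open MeasureTheory
open scoped Classical ENNReal

namespace Pool.T9h81.EA

/-- the fair coin -/
noncomputable def coin : Measure Bool := (PMF.uniformOfFintype Bool).toMeasure

instance : IsProbabilityMeasure coin := by unfold coin; infer_instance

theorem coin_apply (t : Set Bool) :
    coin t = (if true ∈ t then 2⁻¹ else 0) + (if false ∈ t then 2⁻¹ else 0) := by
  unfold coin
  rw [PMF.toMeasure_apply_fintype, Fintype.sum_bool]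
  simp only [Set.indicator, PMF.uniformOfFintype_apply, Fintype.card_bool, Nat.cast_ofNat]

theorem coin_beq (t : Set Bool) (c : Bool) : coin {b | (b == c) ∈ t} = coin t := by
  rw [coin_apply, coin_apply]
  cases c
  · show (if (true == false) ∈ t then (2⁻¹ : ℝ≥0∞) else 0) +
      (if (false == false) ∈ t then 2⁻¹ else 0) = _
    rw [add_comm]
    rfl
  · rfl

variable {V : Type} {G : SimpleGraph V}

theorem couplingLaw_eq : couplingLaw G = Measure.infinitePi fun _ : G.edgeSet => coin := rfl

/-- relative sign of the gauge at the two endpoints of an edge -/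
noncomputable def gs (F : SimpleGraph V) (J : Coupling G) : Sym2 V → Bool :=
  Sym2.lift ⟨fun x y => gauge F J x == gauge F J y, fun x y => by
    show (gauge F J x == gauge F J y) = (gauge F J y == gauge F J x)
    cases gauge F J x <;> cases gauge F J y <;> rfl⟩

theorem measurable_gs (F : SimpleGraph V) (e : Sym2 V) :
    Measurable fun J : Coupling G => gs F J e := by
  induction e using Sym2.ind with
  | _ x y => exact measurable_beq (measurable_gauge F x) (measurable_gauge F y)

/-- couplings `a` on the forest and gauge-transformed couplings `b` off the forest -/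
noncomputable def mix (F : SimpleGraph V) (a b : Coupling G) : Coupling G :=
  fun e => if e.1 ∈ F.edgeSet then a e else (b e == gs F a e.1)

theorem measurable_mix (F : SimpleGraph V) :
    Measurable fun p : Coupling G × Coupling G => mix F p.1 p.2 := by
  rw [measurable_pi_iff]
  intro e
  unfold mix
  by_cases h : e.1 ∈ F.edgeSet
  · simp only [h, if_true]
    exact (measurable_pi_apply e).comp measurable_fst
  · simp only [h, if_false]
    exact measurable_beq ((measurable_pi_apply e).comp measurable_snd)
      ((measurable_gs F e.1).comp measurable_fst)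

theorem map_mix (F : SimpleGraph V) :
    ((couplingLaw G).prod (couplingLaw G)).map (fun p => mix F p.1 p.2) = couplingLaw G := by
  rw [couplingLaw_eq]
  set μ : Measure (Coupling G) := Measure.infinitePi fun _ : G.edgeSet => coin with hμ
  apply Measure.eq_infinitePi
  intro s t ht
  have hpi : MeasurableSet (Set.pi (s : Set G.edgeSet) t) :=
    MeasurableSet.pi (Finset.countable_toSet s) fun i _ => ht i
  rw [Measure.map_apply (measurable_mix F) hpi,
    Measure.prod_apply (measurable_mix F hpi)]
  set s₁ := s.filter fun e => e.1 ∈ F.edgeSet with hs₁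
  set s₂ := s.filter fun e => e.1 ∉ F.edgeSet with hs₂
  have hsec : ∀ a : Coupling G,
      μ (Prod.mk a ⁻¹' ((fun p : Coupling G × Coupling G => mix F p.1 p.2) ⁻¹'
        Set.pi (s : Set G.edgeSet) t)) =
      (Set.pi (s₁ : Set G.edgeSet) t).indicator (fun _ => ∏ i ∈ s₂, coin (t i)) a := by
    intro a
    by_cases ha : a ∈ Set.pi (s₁ : Set G.edgeSet) t
    · rw [Set.indicator_of_mem ha]
      have h1 : (Prod.mk a ⁻¹' ((fun p : Coupling G × Coupling G => mix F p.1 p.2) ⁻¹'
          Set.pi (s : Set G.edgeSet) t)) =
          Set.pi (s₂ : Set G.edgeSet) (fun i => {b | (b == gs F a i.1) ∈ t i}) := by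
        ext b
        constructor
        · intro hb i hi
          have hi' := Finset.mem_filter.mp (Finset.mem_coe.mp hi)
          have h2 : mix F a b i ∈ t i := hb i (Finset.mem_coe.mpr hi'.1)
          unfold mix at h2
          rw [if_neg hi'.2] at h2
          exact h2
        · intro hb i hi
          show mix F a b i ∈ t i
          unfold mix
          by_cases hiF : i.1 ∈ F.edgeSet
          · rw [if_pos hiF]
            exact ha i (Finset.mem_coe.mpr (Finset.mem_filter.mpr ⟨Finset.mem_coe.mp hi, hiF⟩))
          · rw [if_neg hiF]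
            exact hb i (Finset.mem_coe.mpr (Finset.mem_filter.mpr ⟨Finset.mem_coe.mp hi, hiF⟩))
      rw [h1, hμ, Measure.infinitePi_pi]
      · exact Finset.prod_congr rfl fun i _ => coin_beq (t i) _
      · intro i _
        exact Set.Finite.measurableSet (Set.toFinite _)
    · rw [Set.indicator_of_notMem ha]
      have h1 : (Prod.mk a ⁻¹' ((fun p : Coupling G × Coupling G => mix F p.1 p.2) ⁻¹'
          Set.pi (s : Set G.edgeSet) t)) = ∅ := by
        rw [Set.eq_empty_iff_forall_notMem]
        intro b hb
        apply ha
        intro i hi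
        have hi' := Finset.mem_filter.mp (Finset.mem_coe.mp hi)
        have h2 : mix F a b i ∈ t i := hb i (Finset.mem_coe.mpr hi'.1)
        unfold mix at h2
        rw [if_pos hi'.2] at h2
        exact h2
      rw [h1, measure_empty]
  rw [lintegral_congr hsec, lintegral_indicator_const
    (MeasurableSet.pi (Finset.countable_toSet s₁) fun i _ => ht i), hμ, Measure.infinitePi_pi]
  · rw [mul_comm, hs₁, hs₂, Finset.prod_filter_mul_prod_filter_not]
  · intro i _
    exact ht i

theorem ext_mix {F : SimpleGraph V} (a b : Coupling G) {e : Sym2 V} (he : e ∈ F.edgeSet) :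
    ext (mix F a b) e = ext a e := by
  unfold ext
  by_cases h : e ∈ G.edgeSet
  · rw [dif_pos h, dif_pos h]
    unfold mix
    rw [if_pos he]
  · rw [dif_neg h, dif_neg h]

theorem gauge_mix (F : SimpleGraph V) (a b : Coupling G) : gauge F (mix F a b) = gauge F a :=
  gauge_congr _ _ fun _ he => ext_mix a b he

theorem bond_mix (F : SimpleGraph V) (a b : Coupling G) {e : Sym2 V} (he : e ∉ F.edgeSet)
    (heG : e ∈ G.edgeSet) :
    bond (mix F a b) (gauge F (mix F a b)) e = sg (ext b e) := by
  rw [gauge_mix]
  induction e using Sym2.ind with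
  | _ x y =>
    have h : G.Adj x y := heG
    rw [bond_mk, Jc_eq _ h]
    unfold ext
    rw [dif_pos heG, dif_pos heG]
    unfold mix
    rw [if_neg he, sg_beq]
    have h1 : sg (gs F a s(x, y)) = sg (gauge F a x) * sg (gauge F a y) := by
      show sg (gauge F a x == gauge F a y) = _
      rw [sg_beq]
    rw [h1]
    linear_combination (sg (b ⟨s(x, y), heG⟩)) * (sg (gauge F a x) * sg (gauge F a x) *
      sg_mul_self (gauge F a y) + sg_mul_self (gauge F a x))

end Pool.T9h81.EA
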