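import Pool.Agent.T9h81.EA.Basic
import Pool.Agent.T9h81.EA.Limit

/-!
# The Peierls bound for a fixed realisation of the couplings
-/

set_option autoImplicit false

open scoped Classical

namespace Pool.T9h81.EA

variable {V : Type} {G : SimpleGraph V}

/-- `A` is a finite connected set of vertices containing `x`: no proper subset containing `x` is
closed under adjacency inside `A`. -/
def IsConn (G : SimpleGraph V) (x : V) (A : Finset V) : Prop :=
  x ∈ A ∧ ∀ B : Finset V, B ⊆ A → x ∈ B → (∀ u ∈ B, ∀ v ∈ A, G.Adj u v → v ∈ B) → B = A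

theorem IsConn.symm {x u : V} {A : Finset V} (h : IsConn G x A) (hu : u ∈ A) : IsConn G u A := by
  refine ⟨hu, fun B hB huB hcl => ?_⟩
  by_cases hx : x ∈ B
  · exact h.2 B hB hx hcl
  · exfalso
    have h1 : A \ B = A := by
      apply h.2 (A \ B) Finset.sdiff_subset (Finset.mem_sdiff.mpr ⟨h.1, hx⟩)
      intro v hv w hw hvw
      rw [Finset.mem_sdiff] at hv ⊢
      refine ⟨hw, fun hwB => hv.2 (hcl w hwB v hv.1 hvw.symm)⟩
    have h2 : u ∈ A \ B := by rw [h1]; exact hu
    exact (Finset.mem_sdiff.mp h2).2 huB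

/-- The connected component of `x` in a finite set. -/
theorem exists_component {x : V} {D : Finset V} (hx : x ∈ D) :
    ∃ A ⊆ D, IsConn G x A ∧ ∀ u ∈ A, ∀ v ∈ D, G.Adj u v → v ∈ A := by
  let S : Finset (Finset V) := D.powerset.filter fun B => x ∈ B ∧ ∀ u ∈ B, ∀ v ∈ D,
    G.Adj u v → v ∈ B
  have hDS : D ∈ S := Finset.mem_filter.mpr ⟨Finset.mem_powerset_self D, hx, fun u _ v hv _ => hv⟩
  let A : Finset V := D.filter fun v => ∀ B ∈ S, v ∈ B
  have hAD : A ⊆ D := Finset.filter_subset _ _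
  have hxA : x ∈ A := Finset.mem_filter.mpr ⟨hx, fun B hB => (Finset.mem_filter.mp hB).2.1⟩
  have hcl : ∀ u ∈ A, ∀ v ∈ D, G.Adj u v → v ∈ A := by
    intro u hu v hv huv
    refine Finset.mem_filter.mpr ⟨hv, fun B hB => ?_⟩
    exact (Finset.mem_filter.mp hB).2.2 u ((Finset.mem_filter.mp hu).2 B hB) v hv huv
  refine ⟨A, hAD, ⟨hxA, fun B hB hxB hB2 => ?_⟩, hcl⟩
  apply Finset.Subset.antisymm hB
  have hBS : B ∈ S := by
    refine Finset.mem_filter.mpr ⟨Finset.mem_powerset.mpr (hB.trans hAD), hxB, ?_⟩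
    intro u hu v hv huv
    exact hB2 u hu v (hcl u (hB hu) v hv huv) huv
  intro v hv
  exact (Finset.mem_filter.mp hv).2 B hBS

variable [G.LocallyFinite]

/-- The edge boundary of a finite set of vertices. -/
noncomputable def bdE (G : SimpleGraph V) [G.LocallyFinite] (B : Finset V) : Finset (Sym2 V) :=
  B.biUnion fun u => (G.neighborFinset u \ B).image fun v => s(u, v)

theorem mem_bdE {B : Finset V} {e : Sym2 V} :
    e ∈ bdE G B ↔ ∃ u ∈ B, ∃ v, v ∉ B ∧ G.Adj u v ∧ s(u, v) = e := by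
  unfold bdE
  rw [Finset.mem_biUnion]
  constructor
  · rintro ⟨u, hu, h⟩
    rw [Finset.mem_image] at h
    obtain ⟨v, hv, h⟩ := h
    rw [Finset.mem_sdiff, SimpleGraph.mem_neighborFinset] at hv
    exact ⟨u, hu, v, hv.2, hv.1, h⟩
  · rintro ⟨u, hu, v, hv, huv, h⟩
    refine ⟨u, hu, ?_⟩
    rw [Finset.mem_image]
    exact ⟨v, Finset.mem_sdiff.mpr ⟨(SimpleGraph.mem_neighborFinset _ _ _).mpr huv, hv⟩, h⟩

theorem bdE_subset {B Λ : Finset V} (h : B ⊆ Λ) : bdE G B ⊆ edgesOf G Λ := by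
  intro e he
  obtain ⟨u, hu, v, _, huv, h2⟩ := mem_bdE.mp he
  exact mem_edgesOf.mpr ⟨u, h hu, v, huv, h2⟩

/-- The boundary energy `∑_{e ∈ ∂B} J_e s_x s_y` of the set `B` in the configuration `s`. -/
noncomputable def bE (J : Coupling G) (s : V → Bool) (B : Finset V) : ℝ :=
  ∑ e ∈ bdE G B, bond J s e

/-- flip the spins in `B` -/
noncomputable def flipOn (B : Finset V) (σ : V → Bool) : V → Bool :=
  fun z => if z ∈ B then !σ z else σ z

theorem ham_flipOn (J : Coupling G) {Λ B : Finset V} (h : B ⊆ Λ) (σ : V → Bool) :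
    ham J Λ (flipOn B σ) = ham J Λ σ - 2 * ∑ e ∈ bdE G B, bond J σ e := by
  have h1 : ham J Λ σ - ham J Λ (flipOn B σ) = ∑ e ∈ bdE G B, 2 * bond J σ e := by
    unfold ham
    rw [← Finset.sum_sub_distrib]
    symm
    apply Finset.sum_subset_zero_on_sdiff (bdE_subset h)
    · intro e he
      rw [Finset.mem_sdiff] at he
      obtain ⟨x, hx, y, hxy, rfl⟩ := mem_edgesOf.mp he.1
      have h2 : x ∈ B ↔ y ∈ B := by
        constructor
        · intro hxB
          by_contra hyB
          exact he.2 (mem_bdE.mpr ⟨x, hxB, y, hyB, hxy, rfl⟩)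
        · intro hyB
          by_contra hxB
          exact he.2 (mem_bdE.mpr ⟨y, hyB, x, hxB, hxy.symm, Sym2.eq_swap⟩)
      rw [bond_mk, bond_mk]
      unfold flipOn
      by_cases hxB : x ∈ B
      · rw [if_pos hxB, if_pos (h2.mp hxB), sg_not, sg_not]
        ring
      · rw [if_neg hxB, if_neg (fun hy => hxB (h2.mpr hy))]
        ring
    · intro e he
      obtain ⟨u, hu, v, hv, huv, rfl⟩ := mem_bdE.mp he
      rw [bond_mk, bond_mk]
      unfold flipOn
      rw [if_pos hu, if_neg hv, sg_not]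
      ring
  rw [← Finset.mul_sum] at h1
  linarith

/-- flipping in a subset of the box, as a permutation -/
noncomputable def flipSub (Λ B : Finset V) : Equiv.Perm (Λ → Bool) :=
  Function.Involutive.toPerm (fun η => fun z => if z.1 ∈ B then !η z else η z) (by
    intro η
    funext z
    by_cases h : z.1 ∈ B
    · simp [h]
    · simp [h])

omit [G.LocallyFinite] in
theorem glue_flipSub {Λ B : Finset V} (h : B ⊆ Λ) (η : Λ → Bool) (ω : V → Bool) :
    glue Λ (flipSub Λ B η) ω = flipOn B (glue Λ η ω) := by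
  funext z
  unfold flipOn
  by_cases hz : z ∈ Λ
  · rw [glue_mem _ _ hz, glue_mem _ _ hz]
    rfl
  · rw [glue_not_mem _ _ hz, glue_not_mem _ _ hz, if_neg fun hB => hz (h hB)]

/-- The event that all boundary edges of `B` are dual to a contour separating disagreement with
`s` inside from agreement outside. -/
def Ev (G : SimpleGraph V) (s : V → Bool) (B : Finset V) (σ : V → Bool) : Prop :=
  ∀ u ∈ B, ∀ v, v ∉ B → G.Adj u v → σ u ≠ s u ∧ σ v = s v

theorem bond_Ev (J : Coupling G) (s : V → Bool) (B : Finset V) (σ : V → Bool)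
    (h : Ev G s B σ) : ∑ e ∈ bdE G B, bond J σ e = - bE J s B := by
  unfold bE
  rw [← Finset.sum_neg_distrib]
  apply Finset.sum_congr rfl
  intro e he
  obtain ⟨u, hu, v, hv, huv, rfl⟩ := mem_bdE.mp he
  obtain ⟨h1, h2⟩ := h u hu v hv huv
  rw [bond_mk, bond_mk, sg_ne h1, h2]
  ring

theorem gE_Ev_le (β : ℝ) (J : Coupling G) {Λ B : Finset V} (h : B ⊆ Λ) (s : V → Bool) :
    gE β J Λ s (fun σ => if Ev G s B σ then 1 else 0) ≤ Real.exp (-(2 * β * bE J s B)) := by
  unfold gE
  rw [div_le_iff₀ (Zp_pos β J Λ s)]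
  unfold Zp
  rw [← Equiv.sum_comp (flipSub Λ B) (fun η => Real.exp (β * ham J Λ (glue Λ η s))),
    Finset.mul_sum]
  apply Finset.sum_le_sum
  intro η _
  show Real.exp (β * ham J Λ (glue Λ η s)) * (if Ev G s B (glue Λ η s) then 1 else 0) ≤ _
  by_cases hE : Ev G s B (glue Λ η s)
  · rw [if_pos hE, mul_one, glue_flipSub h, ham_flipOn J h, bond_Ev J s B _ hE, ← Real.exp_add]
    apply Real.exp_le_exp.mpr
    ring_nf
    exact le_refl _
  · rw [if_neg hE, mul_zero]
    exact mul_nonneg (Real.exp_pos _).le (Real.exp_pos _).le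

/-- **Peierls bound.**  `𝒜` is any finite collection of sets such that every connected set
`A ∋ x` of the box is enclosed by a member `B` of `𝒜` whose boundary edges are boundary edges
of `A`. -/
theorem peierls (β : ℝ) (J : Coupling G) (Λ : Finset V) (s : V → Bool) (x : V)
    (𝒜 : Finset (Finset V))
    (h𝒜 : ∀ A ⊆ Λ, IsConn G x A → ∃ B ∈ 𝒜, B ⊆ Λ ∧
      ∀ u ∈ B, ∀ v, v ∉ B → G.Adj u v → u ∈ A ∧ v ∉ A) :
    gE β J Λ s (dis s x) ≤ ∑ B ∈ 𝒜, Real.exp (-(2 * β * bE J s B)) := by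
  have h1 : gE β J Λ s (dis s x) ≤
      gE β J Λ s (fun σ => ∑ B ∈ 𝒜.filter (fun B => B ⊆ Λ), if Ev G s B σ then 1 else 0) := by
    apply gE_mono
    intro η
    set σ := glue Λ η s with hσ
    unfold dis
    by_cases hx : σ x = s x
    · rw [if_pos hx]
      exact Finset.sum_nonneg fun B _ => by split_ifs <;> norm_num
    · rw [if_neg hx]
      have hxΛ : x ∈ Λ := by
        by_contra hxΛ
        exact hx (glue_not_mem η s hxΛ)
      obtain ⟨A, hAD, hA, hcl⟩ := exists_component (G := G) (x := x)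
        (D := Λ.filter fun z => σ z ≠ s z) (Finset.mem_filter.mpr ⟨hxΛ, hx⟩)
      have hAΛ : A ⊆ Λ := hAD.trans (Finset.filter_subset _ _)
      obtain ⟨B, hB, hBΛ, hB2⟩ := h𝒜 A hAΛ hA
      have hEv : Ev G s B σ := by
        intro u hu v hv huv
        obtain ⟨h3, h4⟩ := hB2 u hu v hv huv
        refine ⟨(Finset.mem_filter.mp (hAD h3)).2, ?_⟩
        by_contra h5
        have hvΛ : v ∈ Λ := by
          by_contra hvΛ
          exact h5 (glue_not_mem η s hvΛ)
        exact h4 (hcl u h3 v (Finset.mem_filter.mpr ⟨hvΛ, h5⟩) huv)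
      have h6 : (1 : ℝ) = if Ev G s B σ then 1 else 0 := by rw [if_pos hEv]
      refine h6.le.trans ?_
      have hBf : B ∈ 𝒜.filter (fun B => B ⊆ Λ) := Finset.mem_filter.mpr ⟨hB, hBΛ⟩
      exact Finset.single_le_sum (f := fun B => if Ev G s B σ then (1 : ℝ) else 0)
        (fun B _ => by split_ifs <;> norm_num) hBf
  refine h1.trans ?_
  rw [gE_sum]
  calc ∑ B ∈ 𝒜.filter (fun B => B ⊆ Λ), gE β J Λ s (fun σ => if Ev G s B σ then 1 else 0)
      ≤ ∑ B ∈ 𝒜.filter (fun B => B ⊆ Λ), Real.exp (-(2 * β * bE J s B)) := by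
        apply Finset.sum_le_sum
        intro B hB
        exact gE_Ev_le β J (Finset.mem_filter.mp hB).2 s
    _ ≤ ∑ B ∈ 𝒜, Real.exp (-(2 * β * bE J s B)) :=
        Finset.sum_le_sum_of_subset_of_nonneg (Finset.filter_subset _ _)
          fun B _ _ => (Real.exp_pos _).le

end Pool.T9h81.EA
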