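import Pool.Agent.T9h81.EA.ForestMain

/-!
# Products with a tree, and infinite dimension of the set of Gibbs states
-/

set_option autoImplicit false
set_option linter.unusedSectionVars false

open MeasureTheory Filter Topology
open scoped Classical ENNReal

namespace Pool.T9h81.EA

/-! ### Infinitely many states far apart are not convex combinations of finitely many -/

theorem not_finite_dim {Ω : Type} [MeasurableSpace Ω] (P : ℕ → Measure Ω)
    (hP : ∀ m n, m ≠ n → ∃ B : Set Ω, 3 / 4 ≤ |(P m).real B - (P n).real B|)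
    (r : ℕ) (μ : Fin r → Measure Ω) (hμ : ∀ i, IsProbabilityMeasure (μ i)) :
    ∃ n, ¬ ∃ c : Fin r → NNReal, ∑ i, c i = 1 ∧ P n = ∑ i, c i • μ i := by
  by_contra hcon
  push Not at hcon
  choose c hc1 hc2 using hcon
  have hreal : ∀ n (B : Set Ω), (P n).real B = ∑ i, (c n i : ℝ) * (μ i).real B := by
    intro n B
    rw [hc2 n, measureReal_def, Measure.finsetSum_apply, ENNReal.toReal_sum]
    · apply Finset.sum_congr rfl
      intro i _
      rw [Measure.smul_apply]
      show ((c n i : ℝ≥0∞) * μ i B).toReal = _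
      rw [ENNReal.toReal_mul, ENNReal.coe_toReal, measureReal_def]
    · intro i _
      rw [Measure.smul_apply]
      show ((c n i : ℝ≥0∞) * μ i B) ≠ ∞
      exact ENNReal.mul_ne_top ENNReal.coe_ne_top (measure_ne_top _ _)
  have hbd : ∀ n, (fun i => (c n i : ℝ)) ∈ Set.Icc (0 : Fin r → ℝ) 1 := by
    intro n
    rw [Set.mem_Icc]
    refine ⟨fun i => (c n i).2, fun i => ?_⟩
    have h1 : c n i ≤ ∑ j, c n j := Finset.single_le_sum (fun _ _ => zero_le) (Finset.mem_univ i)
    rw [hc1 n] at h1
    exact_mod_cast h1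
  obtain ⟨a, -, φ, hφ, hlim⟩ := isCompact_Icc.tendsto_subseq hbd
  have hcau : CauchySeq ((fun n i => (c n i : ℝ)) ∘ φ : ℕ → Fin r → ℝ) := hlim.cauchySeq
  rw [Metric.cauchySeq_iff'] at hcau
  obtain ⟨N, hN⟩ := hcau (1 / (2 * (r + 1))) (by positivity)
  have hdist := hN (N + 1) (Nat.le_succ N)
  have hne : φ (N + 1) ≠ φ N := (hφ (Nat.lt_succ_self N)).ne'
  obtain ⟨B, hB⟩ := hP _ _ hne
  have h2 : |(P (φ (N + 1))).real B - (P (φ N)).real B| ≤
      ∑ i : Fin r, (1 / (2 * ((r : ℝ) + 1))) := by
    rw [hreal, hreal, ← Finset.sum_sub_distrib]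
    refine (Finset.abs_sum_le_sum_abs _ _).trans (Finset.sum_le_sum fun i _ => ?_)
    rw [← sub_mul, abs_mul]
    have h3 : |(c (φ (N + 1)) i : ℝ) - c (φ N) i| ≤ 1 / (2 * ((r : ℝ) + 1)) := by
      have h4 := (dist_le_pi_dist ((fun i => (c (φ (N + 1)) i : ℝ)) : Fin r → ℝ)
        (fun i => (c (φ N) i : ℝ)) i).trans hdist.le
      rw [Real.dist_eq] at h4
      exact h4
    have h5 : |(μ i).real B| ≤ 1 := by
      rw [abs_of_nonneg measureReal_nonneg]
      exact measureReal_le_one
    calc |(c (φ (N + 1)) i : ℝ) - c (φ N) i| * |(μ i).real B|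
        ≤ (1 / (2 * ((r : ℝ) + 1))) * 1 :=
          mul_le_mul h3 h5 (abs_nonneg _) (by positivity)
      _ = _ := mul_one _
  rw [Finset.sum_const, Finset.card_univ, Fintype.card_fin, nsmul_eq_mul] at h2
  have h6 : (r : ℝ) * (1 / (2 * ((r : ℝ) + 1))) ≤ 1 / 2 := by
    rw [mul_one_div, div_le_div_iff₀ (by positivity) (by norm_num)]
    linarith
  linarith

/-! ### The sheets of a product -/

section

variable {V₁ V₂ : Type}

/-- the copies of `T` in the product `T □ H` -/
def sheets (T : SimpleGraph V₁) (V₂ : Type) : SimpleGraph (V₁ × V₂) where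
  Adj p q := T.Adj p.1 q.1 ∧ p.2 = q.2
  symm := ⟨fun _ _ h => ⟨h.1.symm, h.2.symm⟩⟩
  loopless := ⟨fun _ h => h.1.ne rfl⟩

theorem sheets_le (T : SimpleGraph V₁) (H : SimpleGraph V₂) : sheets T V₂ ≤ T □ H := by
  intro p q h
  rw [SimpleGraph.boxProd_adj]
  exact Or.inl h

theorem sheets_support (T : SimpleGraph V₁) {u v : V₁ × V₂} (p : (sheets T V₂).Walk u v) :
    ∀ w ∈ p.support, w.2 = u.2 := by
  induction p with
  | nil =>
    intro w hw
    rw [SimpleGraph.Walk.support_nil, List.mem_singleton] at hw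
    rw [hw]
  | cons h p ih =>
    intro w hw
    rw [SimpleGraph.Walk.support_cons, List.mem_cons] at hw
    rcases hw with rfl | hw
    · rfl
    · rw [ih w hw]
      exact h.2.symm

theorem sheets_acyclic (T : SimpleGraph V₁) (hT : T.IsAcyclic) :
    (sheets T V₂).IsAcyclic := by
  rw [SimpleGraph.isAcyclic_iff_forall_adj_isBridge] at hT ⊢
  rintro ⟨a, b⟩ ⟨a', b'⟩ hadj
  have hb : b = b' := hadj.2
  subst hb
  have hTadj : T.Adj a a' := hadj.1
  rw [SimpleGraph.isBridge_iff_forall_walk_mem_edges]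
  intro p
  let φ : sheets T V₂ →g T := ⟨Prod.fst, fun h => h.1⟩
  have h1 := (SimpleGraph.isBridge_iff_forall_walk_mem_edges.mp (hT hTadj)) (p.map φ)
  rw [SimpleGraph.Walk.edges_map, List.mem_map] at h1
  obtain ⟨e, he, h2⟩ := h1
  induction e using Sym2.ind with
  | _ u v =>
    have hu := sheets_support T p u (p.fst_mem_support_of_mem_edges he)
    have hv := sheets_support T p v (p.snd_mem_support_of_mem_edges he)
    have hu2 : u.2 = b := hu
    have hv2 : v.2 = b := hv
    rw [Sym2.map_mk, Sym2.eq_iff] at h2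
    obtain ⟨u1, u2⟩ := u
    obtain ⟨v1, v2⟩ := v
    simp only at hu2 hv2
    subst hu2
    subst hv2
    rcases h2 with h2 | h2
    · have e1 : u1 = a := h2.1
      have e2 : v1 = a' := h2.2
      rw [e1, e2] at he
      exact he
    · have e1 : u1 = a' := h2.1
      have e2 : v1 = a := h2.2
      rw [e1, e2, Sym2.eq_swap] at he
      exact he

noncomputable instance sheetsLF (T : SimpleGraph V₁) [T.LocallyFinite] (V₂ : Type) :
    (sheets T V₂).LocallyFinite := fun p =>
  Set.Finite.fintype (by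
    apply (((T.neighborFinset p.1).image fun x => (x, p.2)).finite_toSet).subset
    intro q hq
    rw [Finset.mem_coe, Finset.mem_image]
    refine ⟨q.1, (SimpleGraph.mem_neighborFinset _ _ _).mpr hq.1, ?_⟩
    rw [hq.2])

theorem sheets_degree (T : SimpleGraph V₁) [T.LocallyFinite] (p : V₁ × V₂) :
    T.degree p.1 ≤ (sheets T V₂).degree p := by
  rw [← SimpleGraph.card_neighborFinset_eq_degree, ← SimpleGraph.card_neighborFinset_eq_degree]
  have hinj : Function.Injective fun x : V₁ => (x, p.2) := fun x y h => (Prod.ext_iff.mp h).1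
  rw [← Finset.card_image_of_injective _ hinj]
  apply Finset.card_le_card
  intro q hq
  obtain ⟨x, hx, rfl⟩ := Finset.mem_image.mp hq
  rw [SimpleGraph.mem_neighborFinset] at hx ⊢
  exact ⟨hx, rfl⟩

theorem sheets_components (T : SimpleGraph V₁) [Nonempty V₁] [Infinite V₂] :
    Infinite (sheets T V₂).ConnectedComponent := by
  obtain ⟨x⟩ := (inferInstance : Nonempty V₁)
  apply Infinite.of_injective (fun y : V₂ => (sheets T V₂).connectedComponentMk (x, y))
  intro y y' h
  obtain ⟨p⟩ := SimpleGraph.ConnectedComponent.exact h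
  exact (sheets_support T p _ p.end_mem_support).symm

end

/-! ### Numerical estimates -/

theorem num1 {k Δ : ℕ} (h2 : 2 ≤ Δ) (hk : 8 * √(Δ * Real.log Δ) ≤ k) :
    3 ≤ k ∧ 32 * (Δ * Real.log Δ) ≤ ((k : ℝ) - 2) ^ 2 ∧
      ∀ β : ℝ, √(Real.log Δ / Δ) ≤ β → 4 * Real.log Δ ≤ β * (k - 2) := by
  have hΔ : (2 : ℝ) ≤ Δ := by exact_mod_cast h2
  have hlog2 : (0.69 : ℝ) < Real.log 2 := lt_trans (by norm_num) Real.log_two_gt_d9
  have hlog : (0.69 : ℝ) < Real.log Δ :=
    lt_of_lt_of_le hlog2 (Real.log_le_log (by norm_num) hΔ)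
  set L := √(Δ * Real.log Δ) with hL
  have hprod : (1 : ℝ) ≤ Δ * Real.log Δ := by nlinarith
  have hL1 : 1 ≤ L := by
    rw [hL]
    exact Real.one_le_sqrt.mpr hprod
  have hLsq : L ^ 2 = Δ * Real.log Δ := Real.sq_sqrt (by linarith)
  refine ⟨?_, ?_, ?_⟩
  · have : (3 : ℝ) ≤ k := by linarith
    exact_mod_cast this
  · nlinarith
  · intro β hβ
    have h3 : √(Real.log Δ / Δ) * L = Real.log Δ := by
      rw [hL, ← Real.sqrt_mul (by positivity)]
      have h4 : Real.log Δ / Δ * (Δ * Real.log Δ) = Real.log Δ ^ 2 := by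
        field_simp
      rw [h4, Real.sqrt_sq (by linarith)]
    have h5 : 0 ≤ √(Real.log Δ / Δ) := Real.sqrt_nonneg _
    have h6 : 6 * L ≤ (k : ℝ) - 2 := by linarith
    calc 4 * Real.log Δ ≤ 6 * Real.log Δ := by linarith
      _ = √(Real.log Δ / Δ) * (6 * L) := by linear_combination (-6) * h3
      _ ≤ β * (k - 2) := mul_le_mul hβ h6 (by linarith) (by linarith)

/-- comparison of the two parameters for products -/
theorem num2 {k D : ℕ} (hD : 2 ≤ D) (hk : 2 ^ 18 * √(D * Real.log D) ≤ k) :
    8 * √((k + D : ℕ) * Real.log (k + D : ℕ)) ≤ k ∧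
      √(Real.log (k + D : ℕ) / (k + D : ℕ)) ≤ √(Real.log D / D) := by
  have hD' : (2 : ℝ) ≤ D := by exact_mod_cast hD
  have hlog2 : (0.69 : ℝ) < Real.log 2 := lt_trans (by norm_num) Real.log_two_gt_d9
  have hlog2' : Real.log 2 < 0.7 := lt_trans Real.log_two_lt_d9 (by norm_num)
  have hlogD : Real.log 2 ≤ Real.log D := Real.log_le_log (by norm_num) hD'
  have hprod : (1 : ℝ) ≤ D * Real.log D := by nlinarith
  have hL1 : 1 ≤ √(D * Real.log D) := Real.one_le_sqrt.mpr hprod
  have hLsq : √(D * Real.log D) ^ 2 = D * Real.log D := Real.sq_sqrt (by linarith)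
  have hkbig : (2 : ℝ) ^ 18 ≤ k := by nlinarith
  have hk0 : (0 : ℝ) < k := by linarith [pow_pos (two_pos : (0 : ℝ) < 2) 18]
  constructor
  · rw [Nat.cast_add]
    have hnn : (0 : ℝ) ≤ k := hk0.le
    have key : 64 * (((k : ℝ) + D) * Real.log ((k : ℝ) + D)) ≤ (k : ℝ) ^ 2 := by
      by_cases hkD : (k : ℝ) ≤ D
      · have h1 : Real.log ((k : ℝ) + D) ≤ 2 * Real.log D := by
          have h2 : Real.log ((k : ℝ) + D) ≤ Real.log (2 * D) :=
            Real.log_le_log (by linarith) (by linarith)
          rw [Real.log_mul (by norm_num) (by linarith)] at h2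
          linarith
        have h3 : ((k : ℝ) + D) * Real.log ((k : ℝ) + D) ≤ (2 * D) * (2 * Real.log D) := by
          apply mul_le_mul (by linarith) h1
          · exact Real.log_nonneg (by linarith)
          · linarith
        have h4 : (2 ^ 18 * √(D * Real.log D)) ^ 2 ≤ (k : ℝ) ^ 2 :=
          pow_le_pow_left₀ (by positivity) hk 2
        rw [mul_pow, hLsq] at h4
        nlinarith
      · rw [not_le] at hkD
        have h1 : Real.log ((k : ℝ) + D) ≤ Real.log (2 * k) :=
          Real.log_le_log (by linarith) (by linarith)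
        have h2 : Real.log (2 * k) ≤ 2 * √(2 * k) := by
          have h3 : Real.log (2 * (k : ℝ)) = 2 * Real.log (√(2 * k)) := by
            rw [Real.log_sqrt (by positivity)]
            ring
          rw [h3]
          have h4 : Real.log (√(2 * (k : ℝ))) ≤ √(2 * k) :=
            (Real.log_le_sub_one_of_pos (Real.sqrt_pos.mpr (by positivity))).trans (by linarith)
          linarith
        have h5 : 256 * √(2 * (k : ℝ)) ≤ k := by
          have h6 : √(2 * (k : ℝ)) ≤ k / 256 := by
            rw [Real.sqrt_le_left (by positivity)]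
            nlinarith
          linarith
        have h7 : Real.log ((k : ℝ) + D) ≤ k / 128 := by linarith
        have h8 : 0 ≤ Real.log ((k : ℝ) + D) := Real.log_nonneg (by linarith)
        have h9 : ((k : ℝ) + D) * Real.log ((k : ℝ) + D) ≤ (2 * k) * (k / 128) :=
          mul_le_mul (by linarith) h7 h8 (by linarith)
        nlinarith
    have h10 : √(((k : ℝ) + D) * Real.log ((k : ℝ) + D)) ≤ k / 8 := by
      rw [Real.sqrt_le_left (by positivity)]
      nlinarith
    linarith
  · apply Real.sqrt_le_sqrt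
    rw [Nat.cast_add]
    have he : Real.exp 1 ≤ 3 := Real.exp_one_lt_d9.le.trans (by norm_num)
    by_cases hD3 : D = 2
    · subst hD3
      have h1 : Real.log ((k : ℝ) + (2 : ℕ)) / ((k : ℝ) + (2 : ℕ)) ≤ Real.log 4 / 4 := by
        apply Real.log_div_self_antitoneOn
        · exact he.trans (by norm_num)
        · exact he.trans (by push_cast; linarith)
        · push_cast
          linarith
      have h2 : Real.log 4 / 4 = Real.log (2 : ℕ) / (2 : ℕ) := by
        have h3 : (4 : ℝ) = 2 ^ 2 := by norm_num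
        rw [h3, Real.log_pow]
        push_cast
        ring
      rw [← h2]
      exact h1
    · have hD4 : (3 : ℝ) ≤ D := by
        have : 3 ≤ D := by omega
        exact_mod_cast this
      apply Real.log_div_self_antitoneOn
      · exact he.trans hD4
      · exact he.trans (by linarith)
      · linarith

end Pool.T9h81.EA
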